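import Mathlib

/-!
# Scott ranks of trees: infinitary formulas, trees, Scott rank (statement-level definitions)
-/

set_option autoImplicit false

namespace Pool.Agent.W889.SR

/-- finitary quantifier-free formulas in the signature `{≤}` with `n` free variables -/
inductive QF (n : ℕ) : Type
  | tru : QF n
  | le (i j : Fin n) : QF n
  | eq (i j : Fin n) : QF n
  | neg (φ : QF n) : QF n
  | and (φ ψ : QF n) : QF n

/-- truth of a quantifier-free formula in the structure `(A, r)` -/
def QF.Realize {n : ℕ} {A : Type} (r : A → A → Prop) : QF n → (Fin n → A) → Prop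
  | .tru, _ => True
  | .le i j, v => r (v i) (v j)
  | .eq i j, v => v i = v j
  | .neg φ, v => ¬ φ.Realize r v
  | .and φ ψ, v => φ.Realize r v ∧ ψ.Realize r v

/-- infinitary formulas with `n` free variables in normal form: quantifier-free formulas,
`⋁_i ∃ x_1 … x_{k i}, φ_i` and `⋀_i ∀ x_1 … x_{k i}, φ_i` -/
inductive Fml : ℕ → Type
  | qf {n : ℕ} (φ : QF n) : Fml n
  | disj {n : ℕ} (k : ℕ → ℕ) (φ : (i : ℕ) → Fml (n + k i)) : Fml n
  | conj {n : ℕ} (k : ℕ → ℕ) (φ : (i : ℕ) → Fml (n + k i)) : Fml n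

/-- truth of an infinitary formula in the structure `(A, r)` -/
def Fml.Realize {A : Type} (r : A → A → Prop) : {n : ℕ} → Fml n → (Fin n → A) → Prop
  | _, .qf φ, v => φ.Realize r v
  | _, .disj k φ, v => ∃ i, ∃ w : Fin (k i) → A, (φ i).Realize r (Fin.append v w)
  | _, .conj k φ, v => ∀ i, ∀ w : Fin (k i) → A, (φ i).Realize r (Fin.append v w)

/-- `Lv true φ α`: `φ` is a `Σ_α` formula; `Lv false φ α`: `φ` is a `Π_α` formula
(`Σ_0 = Π_0` = finitary quantifier-free; `Σ_α`: countable disjunctions of formulas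
`∃ x̄ ψ` with `ψ` in `Π_β`, `β < α`; dually `Π_α`) -/
def Fml.Lv : Bool → {n : ℕ} → Fml n → Ordinal.{0} → Prop
  | _, _, .qf _, _ => True
  | true, _, .disj _ φ, α => ∀ i, ∃ β < α, (φ i).Lv false β
  | false, _, .conj _ φ, α => ∀ i, ∃ β < α, (φ i).Lv true β
  | true, _, .conj _ _, _ => False
  | false, _, .disj _ _, _ => False

/-- `φ` is a `Σ_α` formula -/
def Fml.IsSigma {n : ℕ} (φ : Fml n) (α : Ordinal.{0}) : Prop := φ.Lv true α

/-- `φ` is a `Π_α` formula -/
def Fml.IsPi {n : ℕ} (φ : Fml n) (α : Ordinal.{0}) : Prop := φ.Lv false α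

/-- the sentence `φ` is true in `(A, r)` -/
def Sat {A : Type} (r : A → A → Prop) (φ : Fml 0) : Prop := φ.Realize r Fin.elim0

/-- rooted trees as partial orders: there is a least element, and the predecessors of every
element are finitely many and pairwise comparable -/
structure IsTree {A : Type} (r : A → A → Prop) : Prop where
  refl : ∀ x, r x x
  antisymm : ∀ x y, r x y → r y x → x = y
  trans : ∀ x y z, r x y → r y z → r x z
  root : ∃ o, ∀ x, r o x
  fin : ∀ x, {y | r y x}.Finite
  chain : ∀ x y z, r y x → r z x → r y z ∨ r z y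

/-- `ψ` is a Scott sentence of `(A, r)`: its countable models are exactly the isomorphic copies -/
def IsScott {A : Type} (r : A → A → Prop) (ψ : Fml 0) : Prop :=
  ∀ (B : Type) [Countable B] (s : B → B → Prop), Sat s ψ ↔ Nonempty (r ≃r s)

/-- the ordinals `β` such that `(A, r)` has a `Π_{β+1}` Scott sentence -/
def scottSet {A : Type} (r : A → A → Prop) : Set Ordinal.{0} :=
  {β | ∃ ψ : Fml 0, ψ.IsPi (β + 1) ∧ IsScott r ψ}

/-- the Scott rank: the least `β` such that `(A, r)` has a `Π_{β+1}` Scott sentence -/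
noncomputable def scottRank {A : Type} (r : A → A → Prop) : Ordinal.{0} := sInf (scottSet r)

end Pool.Agent.W889.SR
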