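import Mathlib
import Pool.Agent.W889.SR.Defs

/-!
# Back-and-forth relations, conditions, tasks, forcing: definitions and basic lemmas
-/

set_option autoImplicit false

namespace Pool.Agent.W889.SR

open Set Ordinal

/-- same quantifier-free type -/
def SameQf {ι A B : Type} (r : A → A → Prop) (a : ι → A) (s : B → B → Prop) (b : ι → B) : Prop :=
  (∀ i j, r (a i) (a j) ↔ s (b i) (b j)) ∧ ∀ i j, a i = a j ↔ b i = b j

/-- `(A, U, a) ≤_β (B, V, b)`: every `Π_β` fact about `a` in the part `U` of `A` holds of `b` in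
the part `V` of `B` (the new elements are taken from `U` and `V`) -/
def BF (β : Ordinal.{0}) {ι A B : Type} (r : A → A → Prop) (U : Set A) (a : ι → A)
    (s : B → B → Prop) (V : Set B) (b : ι → B) : Prop :=
  SameQf r a s b ∧ ∀ γ, γ < β → ∀ (k : ℕ) (d : Fin k → B), (∀ i, d i ∈ V) →
    ∃ c : Fin k → A, (∀ i, c i ∈ U) ∧ BF γ s V (Sum.elim b d) r U (Sum.elim a c)
termination_by β

theorem BF_iff (β : Ordinal.{0}) {ι A B : Type} (r : A → A → Prop) (U : Set A) (a : ι → A)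
    (s : B → B → Prop) (V : Set B) (b : ι → B) : BF β r U a s V b ↔
    (SameQf r a s b ∧ ∀ γ, γ < β → ∀ (k : ℕ) (d : Fin k → B), (∀ i, d i ∈ V) →
    ∃ c : Fin k → A, (∀ i, c i ∈ U) ∧ BF γ s V (Sum.elim b d) r U (Sum.elim a c)) := by
  rw [BF]

theorem SameQf.symm {ι A B : Type} {r : A → A → Prop} {a : ι → A} {s : B → B → Prop} {b : ι → B}
    (h : SameQf r a s b) : SameQf s b r a :=
  ⟨fun i j => (h.1 i j).symm, fun i j => (h.2 i j).symm⟩

theorem SameQf.refl {ι A : Type} (r : A → A → Prop) (a : ι → A) : SameQf r a r a :=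
  ⟨fun _ _ => Iff.rfl, fun _ _ => Iff.rfl⟩

theorem SameQf.trans {ι A B C : Type} {r : A → A → Prop} {a : ι → A} {s : B → B → Prop} {b : ι → B}
    {t : C → C → Prop} {c : ι → C} (h : SameQf r a s b) (h' : SameQf s b t c) : SameQf r a t c :=
  ⟨fun i j => (h.1 i j).trans (h'.1 i j), fun i j => (h.2 i j).trans (h'.2 i j)⟩

theorem SameQf.reindex {ι κ A B : Type} {r : A → A → Prop} {a : ι → A} {s : B → B → Prop}
    {b : ι → B} (h : SameQf r a s b) (u : κ → ι) : SameQf r (a ∘ u) s (b ∘ u) :=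
  ⟨fun i j => h.1 (u i) (u j), fun i j => h.2 (u i) (u j)⟩

theorem BF.sameQf {β : Ordinal.{0}} {ι A B : Type} {r : A → A → Prop} {U : Set A} {a : ι → A}
    {s : B → B → Prop} {V : Set B} {b : ι → B} (h : BF β r U a s V b) : SameQf r a s b := by
  rw [BF_iff] at h; exact h.1

theorem BF.mono {β β' : Ordinal.{0}} (hle : β' ≤ β) {ι A B : Type} {r : A → A → Prop} {U : Set A}
    {a : ι → A} {s : B → B → Prop} {V : Set B} {b : ι → B} (h : BF β r U a s V b) :
    BF β' r U a s V b := by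
  rw [BF_iff] at h ⊢
  exact ⟨h.1, fun γ hγ => h.2 γ (lt_of_lt_of_le hγ hle)⟩

theorem BF.reindex {β : Ordinal.{0}} : ∀ {ι κ A B : Type} {r : A → A → Prop} {U : Set A}
    {a : ι → A} {s : B → B → Prop} {V : Set B} {b : ι → B}, BF β r U a s V b → ∀ u : κ → ι,
    BF β r U (a ∘ u) s V (b ∘ u) := by
  induction β using Ordinal.induction with
  | h β ih =>
    intro ι κ A B r U a s V b h u
    rw [BF_iff] at h ⊢
    refine ⟨h.1.reindex u, fun γ hγ k d hd => ?_⟩
    obtain ⟨c, hc, hbf⟩ := h.2 γ hγ k d hd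
    refine ⟨c, hc, ?_⟩
    have := ih γ hγ hbf (Sum.map u (id : Fin k → Fin k))
    rwa [Sum.elim_comp_map, Sum.elim_comp_map, Function.comp_id, Function.comp_id] at this

theorem BF.refl (β : Ordinal.{0}) : ∀ {ι A : Type} (r : A → A → Prop) (U : Set A) (a : ι → A),
    BF β r U a r U a := by
  induction β using Ordinal.induction with
  | h β ih =>
    intro ι A r U a
    rw [BF_iff]
    exact ⟨SameQf.refl r a, fun γ hγ k d hd => ⟨d, hd, ih γ hγ r U _⟩⟩

theorem BF.trans {β : Ordinal.{0}} : ∀ {ι A B C : Type} {r : A → A → Prop} {U : Set A}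
    {a : ι → A} {s : B → B → Prop} {V : Set B} {b : ι → B} {t : C → C → Prop} {W : Set C}
    {c : ι → C}, BF β r U a s V b → BF β s V b t W c → BF β r U a t W c := by
  induction β using Ordinal.induction with
  | h β ih =>
    intro ι A B C r U a s V b t W c h h'
    rw [BF_iff] at h h' ⊢
    refine ⟨h.1.trans h'.1, fun γ hγ k d hd => ?_⟩
    obtain ⟨d', hd', hbf'⟩ := h'.2 γ hγ k d hd
    obtain ⟨d'', hd'', hbf''⟩ := h.2 γ hγ k d' hd'
    exact ⟨d'', hd'', ih γ hγ hbf' hbf''⟩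

/-- the converse relation one level below -/
theorem BF.swap {β γ : Ordinal.{0}} (hγ : γ < β) {ι A B : Type} {r : A → A → Prop} {U : Set A}
    {a : ι → A} {s : B → B → Prop} {V : Set B} {b : ι → B} (h : BF β r U a s V b) :
    BF γ s V b r U a := by
  rw [BF_iff] at h
  obtain ⟨c, -, hbf⟩ := h.2 γ hγ 0 Fin.elim0 (fun i => i.elim0)
  exact hbf.reindex Sum.inl

/-- invariance under isomorphism -/
theorem BF.of_iso {β : Ordinal.{0}} {ι A B : Type} {r : A → A → Prop} {U : Set A} (a : ι → A)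
    {s : B → B → Prop} {V : Set B} (g : A ≃ B) (hg : ∀ x y, r x y ↔ s (g x) (g y))
    (hU : ∀ x, x ∈ U ↔ g x ∈ V) : BF β r U a s V (g ∘ a) := by
  have key : ∀ β : Ordinal.{0}, (∀ {ι : Type} (a : ι → A), BF β r U a s V (g ∘ a)) ∧
      ∀ {ι : Type} (a : ι → A), BF β s V (g ∘ a) r U a := by
    intro β
    induction β using Ordinal.induction with
    | h β ih =>
      constructor
      · intro ι a
        rw [BF_iff]
        refine ⟨⟨fun i j => hg _ _, fun i j => g.injective.eq_iff.symm⟩, fun γ hγ k d hd => ?_⟩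
        refine ⟨g.symm ∘ d, fun i => (hU _).2 (by simpa using hd i), ?_⟩
        have := (ih γ hγ).2 (Sum.elim a (g.symm ∘ d))
        have e : g ∘ Sum.elim a (g.symm ∘ d) = Sum.elim (g ∘ a) d := by
          rw [Sum.comp_elim]; congr 1; ext i; simp
        rwa [e] at this
      · intro ι a
        rw [BF_iff]
        refine ⟨⟨fun i j => (hg _ _).symm, fun i j => g.injective.eq_iff⟩, fun γ hγ k d hd => ?_⟩
        refine ⟨g ∘ d, fun i => (hU _).1 (hd i), ?_⟩
        have := (ih γ hγ).1 (Sum.elim a d)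
        rwa [Sum.comp_elim] at this
  exact (key β).1 a

/-- conditions: a tuple of the ground structure `T` and a level `β` with `1 ≤ β < α` -/
structure Cond (T : Type) (α : Ordinal.{0}) where
  n : ℕ
  e : Fin n → T
  β : Ordinal.{0}
  one_le : 1 ≤ β
  lt : β < α

variable {T : Type} {α : Ordinal.{0}}

/-- `q` extends `p` along `ρ` -/
def Ext (r : T → T → Prop) (q p : Cond T α) (ρ : Fin p.n → Fin q.n) : Prop :=
  p.β ≤ q.β ∧ BF p.β r univ p.e r univ (q.e ∘ ρ)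

/-- the tuple `f` of the structure `(ℕ, s)` satisfies the condition `p` -/
def Rl (r : T → T → Prop) (p : Cond T α) (s : ℕ → ℕ → Prop) (f : Fin p.n → ℕ) : Prop :=
  BF p.β r univ p.e s univ f

theorem Ext.refl (r : T → T → Prop) (p : Cond T α) : Ext r p p id :=
  ⟨le_rfl, BF.refl _ _ _ _⟩

theorem Ext.trans {r : T → T → Prop} {t q p : Cond T α} {κ : Fin q.n → Fin t.n}
    {ρ : Fin p.n → Fin q.n} (h : Ext r t q κ) (h' : Ext r q p ρ) : Ext r t p (κ ∘ ρ) := by
  refine ⟨h'.1.trans h.1, ?_⟩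
  have := (h.2.mono h'.1).reindex ρ
  exact h'.2.trans this

theorem Rl.of_ext {r : T → T → Prop} {q p : Cond T α} {ρ : Fin p.n → Fin q.n} (h : Ext r q p ρ)
    {s : ℕ → ℕ → Prop} {f : Fin q.n → ℕ} (hf : Rl r q s f) : Rl r p s (f ∘ ρ) :=
  h.2.trans ((BF.mono h.1 hf).reindex ρ)

/-- a task: to every condition `p` a set of extensions `(q, ρ)` -/
abbrev Task (T : Type) (α : Ordinal.{0}) :=
  (p : Cond T α) → (q : Cond T α) → (Fin p.n → Fin q.n) → Prop

/-- a task is dense if below every extension of `p` some member of the task at `p` is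
compatible -/
def Task.Dense (r : T → T → Prop) (W : Task T α) : Prop :=
  ∀ (p t : Cond T α) (σ : Fin p.n → Fin t.n), Ext r t p σ →
    ∃ (q : Cond T α) (ρ : Fin p.n → Fin q.n), W p q ρ ∧ Ext r q p ρ ∧
      ∃ (u : Cond T α) (τ : Fin t.n → Fin u.n) (κ : Fin q.n → Fin u.n),
        Ext r u t τ ∧ Ext r u q κ ∧ τ ∘ σ = κ ∘ ρ

/-- the structure `(ℕ, s)` meets the task `W` -/
def Meets (r : T → T → Prop) (s : ℕ → ℕ → Prop) (W : Task T α) : Prop :=
  ∀ (p : Cond T α) (f : Fin p.n → ℕ), Rl r p s f →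
    ∃ (q : Cond T α) (ρ : Fin p.n → Fin q.n) (f' : Fin q.n → ℕ),
      W p q ρ ∧ Ext r q p ρ ∧ Rl r q s f' ∧ f' ∘ ρ = f

/-- `(ℕ, s)` is generic for the countable family `W` of tasks -/
structure Good (r : T → T → Prop) (s : ℕ → ℕ → Prop) (W : ℕ → Task T α) : Prop where
  base : ∀ γ : Ordinal.{0}, 1 ≤ γ → γ < α →
    BF γ r univ (Fin.elim0 : Fin 0 → T) s univ (Fin.elim0 : Fin 0 → ℕ)
  cov : ∀ (p : Cond T α) (f : Fin p.n → ℕ), Rl r p s f →
    ∀ (m : ℕ) (g : Fin m → ℕ) (γ : Ordinal.{0}), γ < α →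
    ∃ (q : Cond T α) (ρ : Fin p.n → Fin q.n) (κ : Fin m → Fin q.n) (f' : Fin q.n → ℕ),
      Ext r q p ρ ∧ γ ≤ q.β ∧ Rl r q s f' ∧ f' ∘ ρ = f ∧ f' ∘ κ = g
  meets : ∀ i, Meets r s (W i)

/-- predicates of tuples in structures on `ℕ` -/
abbrev Pred (ι : Type) := (ℕ → ℕ → Prop) → (ι → ℕ) → Prop

/-- `p` forces `Ψ` at the positions `u` -/
def Force (r : T → T → Prop) (p : Cond T α) {ι : Type} (u : ι → Fin p.n) (Ψ : Pred ι) : Prop :=
  ∃ W : ℕ → Task T α, (∀ i, (W i).Dense r) ∧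
    ∀ s : ℕ → ℕ → Prop, Good r s W → ∀ f : Fin p.n → ℕ, Rl r p s f → Ψ s (f ∘ u)

/-- `Ψ` is decided densely -/
def Dec (α : Ordinal.{0}) (r : T → T → Prop) {ι : Type} (Ψ : Pred ι) : Prop :=
  ∀ (p : Cond T α) (u : ι → Fin p.n), ∃ (q : Cond T α) (ρ : Fin p.n → Fin q.n), Ext r q p ρ ∧
    (Force r q (ρ ∘ u) Ψ ∨ Force r q (ρ ∘ u) (fun s f => ¬ Ψ s f))

/-- truth in `(ℕ, s)` is forced truth -/
def Truth (α : Ordinal.{0}) (r : T → T → Prop) (s : ℕ → ℕ → Prop) {ι : Type} (Ψ : Pred ι) :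
    Prop :=
  (∀ (p : Cond T α) (u : ι → Fin p.n), Force r p u Ψ → ∀ g, Rl r p s g → Ψ s (g ∘ u)) ∧
    ∀ f : ι → ℕ, Ψ s f → ∃ (p : Cond T α) (u : ι → Fin p.n) (g : Fin p.n → ℕ),
      Force r p u Ψ ∧ Rl r p s g ∧ g ∘ u = f

/-! ### first-order formulas over basic symbols, evaluated in cones -/

/-- first-order formulas over a set `S` of basic symbols, variables indexed by `ℕ` -/
inductive Q (S : Type 1) : Type 1
  | base (b : S) : Q S
  | neg (q : Q S) : Q S
  | and (q q' : Q S) : Q S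
  | ex (i : ℕ) (q : Q S) : Q S

/-- interpretations of basic symbols: structure, root of the cone, assignment -/
abbrev Itp (S : Type 1) := S → (ℕ → ℕ → Prop) → ℕ → (ℕ → ℕ) → Prop

/-- truth of a first-order formula in the cone of `s` with root `v` -/
def Q.sat {S : Type 1} (B : Itp S) (s : ℕ → ℕ → Prop) (v : ℕ) : Q S → (ℕ → ℕ) → Prop
  | .base b, ρ => B b s v ρ
  | .neg q, ρ => ¬ q.sat B s v ρ
  | .and q q', ρ => q.sat B s v ρ ∧ q'.sat B s v ρ
  | .ex i q, ρ => ∃ w, s v w ∧ q.sat B s v (Function.update ρ i w)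

/-- the assignment given by a tuple, the other variables being the root -/
def ext (v : ℕ) {k : ℕ} (z : Fin k → ℕ) : ℕ → ℕ := fun i => if h : i < k then z ⟨i, h⟩ else v

/-- the tuples `c` in the cone of `a` and `d` in the cone of `b` have the same type -/
def SameTp {S : Type 1} (B : Itp S) (s : ℕ → ℕ → Prop) {k : ℕ} (a : ℕ) (c : Fin k → ℕ) (b : ℕ)
    (d : Fin k → ℕ) : Prop :=
  ∀ q : Q S, q.sat B s a (ext a c) ↔ q.sat B s b (ext b d)

/-- the type of the tuple `c` in the cone of `v` is isolated -/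
def Isol {S : Type 1} (B : Itp S) (s : ℕ → ℕ → Prop) {k : ℕ} (v : ℕ) (c : Fin k → ℕ) : Prop :=
  ∃ τ : Q S, τ.sat B s v (ext v c) ∧ ∀ z : Fin k → ℕ, (∀ i, s v (z i)) →
    τ.sat B s v (ext v z) → SameTp B s v z v c

/-- all types realized in the cone of `v` are isolated -/
def Atomic {S : Type 1} (B : Itp S) (s : ℕ → ℕ → Prop) (v : ℕ) : Prop :=
  ∀ (k : ℕ) (c : Fin k → ℕ), (∀ i, s v (c i)) → Isol B s v c

/-- basic relation of cones: `(T_e, e, a) ≤_β (M_v, v, z)` -/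
def CB (r : T → T → Prop) (e : T) (β : Ordinal.{0}) {ι : Type} (a : ι → T) (s : ℕ → ℕ → Prop)
    (v : ℕ) (z : ι → ℕ) : Prop :=
  BF β r {x | r e x} (fun o : Option ι => o.elim e a) s {y | s v y} (fun o => o.elim v z)

/-- the basic symbols -/
inductive SB (T : Type) (α : Ordinal.{0}) : Type 1
  | le (i j : ℕ) : SB T α
  | eq (i j : ℕ) : SB T α
  | cb (n : ℕ) (e : T) (a : Fin n → T) (β : Set.Iio α) (u : Fin n → ℕ) : SB T α

/-- their meaning -/
def Bs (r : T → T → Prop) : Itp (SB T α)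
  | .le i j, s, _, ρ => s (ρ i) (ρ j)
  | .eq i j, _, _, ρ => ρ i = ρ j
  | .cb _ e a β u, s, v, ρ => CB r e β.1 a s v (ρ ∘ u)

/-- isomorphism of the cones of `a` and `b` in `(ℕ, s)` -/
def ConeIso (s : ℕ → ℕ → Prop) (a b : ℕ) : Prop :=
  ∃ g : {x // s a x} ≃ {y // s b y}, ∀ x y, s x.1 y.1 ↔ s (g x).1 (g y).1

/-- `R` is defined in `(M, s)` by a `Σ_α` formula -/
def SigDef {M : Type} (s : M → M → Prop) (α : Ordinal.{0}) {n : ℕ} (R : (Fin n → M) → Prop) :
    Prop := ∃ φ : Fml n, φ.IsSigma α ∧ ∀ v, φ.Realize s v ↔ R v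

/-- `R` is defined in `(M, s)` by a `Π_α` formula -/
def PiDef {M : Type} (s : M → M → Prop) (α : Ordinal.{0}) {n : ℕ} (R : (Fin n → M) → Prop) :
    Prop := ∃ φ : Fml n, φ.IsPi α ∧ ∀ v, φ.Realize s v ↔ R v

/-- the automorphism orbit of a tuple -/
def Orbit {M : Type} (s : M → M → Prop) {n : ℕ} (a : Fin n → M) (b : Fin n → M) : Prop :=
  ∃ g : s ≃r s, ∀ i, g (a i) = b i

end Pool.Agent.W889.SR
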