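import Mathlib
import Pool.Agent.W889.SR.Core

/-!
# Statements of the parts (project SR)
-/

set_option autoImplicit false

namespace Pool.Agent.W889.SR

open Set Ordinal

/-! ### FM: closure properties of the infinitary formulas -/

/-- closure properties of the classes of formulas (`Lv true α` = `Σ_α`, `Lv false α` = `Π_α`) -/
structure FM : Prop where
  qf : ∀ (n : ℕ) (P E : Fin n → Fin n → Prop), ∃ φ : QF n, ∀ (A : Type) (r : A → A → Prop)
    (v : Fin n → A), φ.Realize r v ↔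
      ((∀ i j, r (v i) (v j) ↔ P i j) ∧ ∀ i j, v i = v j ↔ E i j)
  neg : ∀ (n : ℕ) (φ : Fml n), ∃ φ' : Fml n, (∀ b α, φ.Lv b α → φ'.Lv (!b) α) ∧
    ∀ (A : Type) (r : A → A → Prop) (v : Fin n → A), φ'.Realize r v ↔ ¬ φ.Realize r v
  re : ∀ (n m : ℕ) (u : Fin n → Fin m) (φ : Fml n), ∃ φ' : Fml m,
    (∀ b α, φ.Lv b α → φ'.Lv b α) ∧
    ∀ (A : Type) (r : A → A → Prop) (v : Fin m → A), φ'.Realize r v ↔ φ.Realize r (v ∘ u)
  mono : ∀ (n : ℕ) (φ : Fml n) (b : Bool) (α α' : Ordinal.{0}), α ≤ α' → φ.Lv b α → φ.Lv b α'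
  lift : ∀ (n : ℕ) (φ : Fml n) (b : Bool), ∃ φ' : Fml n,
    (∀ α α', α < α' → φ.Lv b α → φ'.Lv (!b) α') ∧
    ∀ (A : Type) (r : A → A → Prop) (v : Fin n → A), φ'.Realize r v ↔ φ.Realize r v
  conj : ∀ (α : Ordinal.{0}), 1 ≤ α → ∀ (n : ℕ) (φ : ℕ → Fml n), (∀ i, (φ i).Lv false α) →
    ∃ φ' : Fml n, φ'.Lv false α ∧ ∀ (A : Type) (r : A → A → Prop) (v : Fin n → A),
      φ'.Realize r v ↔ ∀ i, (φ i).Realize r v
  disj : ∀ (α : Ordinal.{0}), 1 ≤ α → ∀ (n : ℕ) (φ : ℕ → Fml n), (∀ i, (φ i).Lv true α) →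
    ∃ φ' : Fml n, φ'.Lv true α ∧ ∀ (A : Type) (r : A → A → Prop) (v : Fin n → A),
      φ'.Realize r v ↔ ∃ i, (φ i).Realize r v
  all : ∀ (α : Ordinal.{0}), 1 ≤ α → ∀ (n k : ℕ) (φ : Fml (n + k)), φ.Lv false α →
    ∃ φ' : Fml n, φ'.Lv false α ∧ ∀ (A : Type) (r : A → A → Prop) (v : Fin n → A),
      φ'.Realize r v ↔ ∀ w : Fin k → A, φ.Realize r (Fin.append v w)
  ex : ∀ (α : Ordinal.{0}), 1 ≤ α → ∀ (n k : ℕ) (φ : Fml (n + k)), φ.Lv true α →
    ∃ φ' : Fml n, φ'.Lv true α ∧ ∀ (A : Type) (r : A → A → Prop) (v : Fin n → A),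
      φ'.Realize r v ↔ ∃ w : Fin k → A, φ.Realize r (Fin.append v w)
  or : ∀ (b : Bool) (α : Ordinal.{0}) (n : ℕ) (φ ψ : Fml n), φ.Lv b α → ψ.Lv b α →
    ∃ φ' : Fml n, φ'.Lv b α ∧ ∀ (A : Type) (r : A → A → Prop) (v : Fin n → A),
      φ'.Realize r v ↔ (φ.Realize r v ∨ ψ.Realize r v)
  and : ∀ (b : Bool) (α : Ordinal.{0}) (n : ℕ) (φ ψ : Fml n), φ.Lv b α → ψ.Lv b α →
    ∃ φ' : Fml n, φ'.Lv b α ∧ ∀ (A : Type) (r : A → A → Prop) (v : Fin n → A),
      φ'.Realize r v ↔ (φ.Realize r v ∧ ψ.Realize r v)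

/-! ### K: Karp type theorems -/

/-- back-and-forth relations transfer formulas -/
def K1 : Prop := ∀ (β : Ordinal.{0}) (n : ℕ) (φ : Fml n) (A B : Type) (r : A → A → Prop)
  (a : Fin n → A) (s : B → B → Prop) (b : Fin n → B), BF β r univ a s univ b →
    (φ.IsPi β → φ.Realize r a → φ.Realize s b) ∧ (φ.IsSigma β → φ.Realize s b → φ.Realize r a)

/-- failure of a back-and-forth relation is witnessed by a formula -/
def K2 : Prop := ∀ (β : Ordinal.{0}) (n : ℕ) (A B : Type) [Countable A] [Countable B]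
  (r : A → A → Prop) (a : Fin n → A) (s : B → B → Prop) (b : Fin n → B),
    ¬ BF β r univ a s univ b → ∃ φ : Fml n, φ.IsPi β ∧ φ.Realize r a ∧ ¬ φ.Realize s b

/-- satisfaction of a condition is defined inside `(ℕ, s)` by a `Π` formula of its level -/
def RD : Prop := ∀ (T : Type) [Countable T] (α : Ordinal.{0}) (r : T → T → Prop) (p : Cond T α)
  (s : ℕ → ℕ → Prop), PiDef s p.β (fun f : Fin p.n → ℕ => Rl r p s f)

def K12_stmt : Prop := FM → K1 ∧ K2 ∧ RD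

/-- Scott sentence from definable orbits -/
def K3 : Prop := ∀ (M : Type) [Countable M] [Nonempty M] (s : M → M → Prop) (β : Ordinal.{0}),
  1 ≤ β → (∀ (n : ℕ) (a : Fin n → M), SigDef s β (Orbit s a)) →
    ∃ ψ : Fml 0, ψ.IsPi (β + 1) ∧ IsScott s ψ

def K3_stmt : Prop := FM → K3

/-- finite structures: orbits are `Σ_1` -/
def FIN : Prop := ∀ (M : Type) [Finite M] [Nonempty M] (s : M → M → Prop) (n : ℕ) (a : Fin n → M),
  SigDef s 1 (Orbit s a)

def FIN_stmt : Prop := FM → FIN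

/-! ### EX: existence of generic structures -/

def EX : Prop := ∀ (T : Type) [Countable T] [Infinite T] (α : Ordinal.{0}), 2 ≤ α →
  (Set.Iio α).Countable → ∀ (r : T → T → Prop) (W : ℕ → Task T α), (∀ i, (W i).Dense r) →
    ∃ s : ℕ → ℕ → Prop, Good r s W

/-! ### DEC: closure properties of the densely decided predicates -/

structure DecLaws {T : Type} (α : Ordinal.{0}) (r : T → T → Prop) : Prop where
  le : ∀ {ι : Type} (i j : ι), Dec α r (fun s (f : ι → ℕ) => s (f i) (f j))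
  eq : ∀ {ι : Type} (i j : ι), Dec α r (fun _ (f : ι → ℕ) => f i = f j)
  re : ∀ {ι κ : Type} (Ψ : Pred ι) (v : ι → κ), Dec α r Ψ →
    Dec α r (fun s (f : κ → ℕ) => Ψ s (f ∘ v))
  not : ∀ {ι : Type} (Ψ : Pred ι), Dec α r Ψ → Dec α r (fun s f => ¬ Ψ s f)
  all : ∀ {ι : Type} (J : Type 1) [Countable J] (Ψ : J → Pred ι), (∀ j, Dec α r (Ψ j)) →
    Dec α r (fun s f => ∀ j, Ψ j s f)
  ex : ∀ {ι : Type} (k : ℕ) (χ : Pred (ι ⊕ Fin k)), Dec α r χ →
    Dec α r (fun s f => ∃ z : Fin k → ℕ, χ s (Sum.elim f z))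

def DEC_stmt : Prop := ∀ (T : Type) [Countable T] (α : Ordinal.{0}), (Set.Iio α).Countable →
  ∀ r : T → T → Prop, DecLaws α r

/-- the generic structure in which truth is forced truth for countably many predicates -/
def MAIN_stmt : Prop := EX → ∀ (T : Type) [Countable T] [Infinite T] (α : Ordinal.{0}), 2 ≤ α →
  (Set.Iio α).Countable → ∀ (r : T → T → Prop) (J : Type 1) [Countable J] (ι : J → Type)
  [∀ j, Finite (ι j)] (Ψ : (j : J) → Pred (ι j)), (∀ j, Dec α r (Ψ j)) →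
  ∀ W0 : ℕ → Task T α, (∀ i, (W0 i).Dense r) →
    ∃ s : ℕ → ℕ → Prop, Good r s W0 ∧ ∀ j, Truth α r s (Ψ j)

/-! ### CBD: the predicates used later are densely decided -/

variable {T : Type} {α : Ordinal.{0}}

/-- truth of the formula `q` of the cone with root `f 0` at the tuple `f 1, …, f k` -/
def PQ (r : T → T → Prop) (k : ℕ) (q : Q (SB T α)) : Pred (Fin (k + 1)) :=
  fun s f => q.sat (Bs r) s (f 0) (ext (f 0) (fun i : Fin k => f i.succ))

/-- equality of types of two tuples in two cones -/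
def PTE (α : Ordinal.{0}) (r : T → T → Prop) (k : ℕ) : Pred (Bool ⊕ (Fin k ⊕ Fin k)) :=
  fun s f => SameTp (Bs (α := α) r) s (f (Sum.inl false)) (fun i => f (Sum.inr (Sum.inl i)))
    (f (Sum.inl true)) (fun i => f (Sum.inr (Sum.inr i)))

/-- the cones `a = f false` and `b = f true` have the same theory, the first is atomic and the
tuple in the second has no isolated type -/
def PNM (α : Ordinal.{0}) (r : T → T → Prop) (k : ℕ) : Pred (Bool ⊕ Fin k) :=
  fun s f => SameTp (Bs (α := α) r) s (k := 0) (f (Sum.inl false)) Fin.elim0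
      (f (Sum.inl true)) Fin.elim0 ∧ Atomic (Bs (α := α) r) s (f (Sum.inl false)) ∧
    ¬ Isol (Bs (α := α) r) s (f (Sum.inl true)) (fun i => f (Sum.inr i))

def CBD_stmt : Prop := ∀ (T : Type) [Countable T] (α : Ordinal.{0}), (Set.Iio α).Countable →
  (∀ S : Type 1, Countable S → Countable (Q S)) →
  ∀ r : T → T → Prop, DecLaws α r → (∀ k q, Dec α r (PQ (α := α) r k q)) ∧
    (∀ k, Dec α r (PTE α r k)) ∧ ∀ k, Dec α r (PNM α r k)

/-! ### FV: decomposition at a node of a tree -/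

/-- partial orders in which the predecessors of an element are comparable -/
structure IsForest {A : Type} (r : A → A → Prop) : Prop where
  refl : ∀ x, r x x
  antisymm : ∀ x y, r x y → r y x → x = y
  trans : ∀ x y z, r x y → r y z → r x z
  chain : ∀ x y z, r y x → r z x → r y z ∨ r z y

def FVcomb : Prop := ∀ (A B : Type) (r : A → A → Prop) (s : B → B → Prop), IsForest r →
  IsForest s → ∀ (β : Ordinal.{0}) (e : A) (v : B) (ι κ : Type) (a₁ : ι → A) (b₁ : ι → B)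
  (a₂ : κ → A) (b₂ : κ → B), (∀ i, r e (a₁ i)) → (∀ i, s v (b₁ i)) →
  (∀ j, r e (a₂ j) → a₂ j = e) → (∀ j, s v (b₂ j) → b₂ j = v) →
  BF β r {x | r e x} (fun o : Option ι => o.elim e a₁) s {y | s v y}
    (fun o => o.elim v b₁) →
  BF β r {x | r e x → x = e} (fun o : Option κ => o.elim e a₂) s {y | s v y → y = v}
    (fun o => o.elim v b₂) →
  BF β r univ (Sum.elim a₁ a₂) s univ (Sum.elim b₁ b₂)

def FVsplit : Prop := ∀ (A B : Type) (r : A → A → Prop) (s : B → B → Prop) (β : Ordinal.{0})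
  (ι : Type) (a : ι → A) (b : ι → B) (i₀ : ι), BF β r univ a s univ b →
  (∀ (κ : Type) (u : κ → ι), (∀ j, r (a i₀) (a (u j))) →
    BF β r {x | r (a i₀) x} (fun o : Option κ => o.elim (a i₀) (a ∘ u)) s {y | s (b i₀) y}
      (fun o => o.elim (b i₀) (b ∘ u))) ∧
  ∀ (κ : Type) (u : κ → ι), (∀ j, r (a i₀) (a (u j)) → a (u j) = a i₀) →
    BF β r {x | r (a i₀) x → x = a i₀} (fun o : Option κ => o.elim (a i₀) (a ∘ u)) s
      {y | s (b i₀) y → y = b i₀} (fun o => o.elim (b i₀) (b ∘ u))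

def FV_stmt : Prop := FVcomb ∧ FVsplit

/-! ### TREE: generic structures of trees are trees and satisfy the `Π_α` sentences -/

def TREE_stmt : Prop := K1 → ∀ (T : Type) [Countable T] (α : Ordinal.{0}), 2 ≤ α →
  (Set.Iio α).Countable → ∀ (r : T → T → Prop), IsTree r → ∀ φ : Fml 0, φ.IsPi α → Sat r φ →
    ∃ W0 : ℕ → Task T α, (∀ i, (W0 i).Dense r) ∧ ∀ s : ℕ → ℕ → Prop, Good r s W0 →
      IsTree s ∧ Sat s φ

/-! ### QL: first-order logic in cones -/

/-- closure of the basic symbols -/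
structure BLaws {S : Type 1} (B : Itp S) : Prop where
  ren : ∀ (b : S) (π : ℕ → ℕ), ∃ b' : S, ∀ s v ρ, B b' s v ρ ↔ B b s v (ρ ∘ π)
  le : ∀ i j : ℕ, ∃ b : S, ∀ s v ρ, B b s v ρ ↔ s (ρ i) (ρ j)
  eq : ∀ i j : ℕ, ∃ b : S, ∀ s v ρ, B b s v ρ ↔ ρ i = ρ j

/-- first part: countability, renaming of variables, projections -/
structure QA : Prop where
  count : ∀ S : Type 1, Countable S → Countable (Q S)
  ren : ∀ (S : Type 1) (B : Itp S), BLaws B → ∀ (q : Q S) (π : ℕ → ℕ), Function.Injective π →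
    ∃ q' : Q S, ∀ s v ρ, q'.sat B s v ρ ↔ q.sat B s v (ρ ∘ π)
  proj : ∀ (S : Type 1) (B : Itp S), BLaws B → ∀ (k n : ℕ) (u : Fin k → Fin n) (q : Q S),
    ∃ τ : Q S, ∀ (s : ℕ → ℕ → Prop) (v : ℕ), s v v → ∀ z : Fin k → ℕ, (∀ i, s v (z i)) →
      (τ.sat B s v (ext v z) ↔ ∃ z' : Fin n → ℕ, (∀ i, s v (z' i)) ∧ q.sat B s v (ext v z') ∧
        z' ∘ u = z)

structure QLaws : Prop where
  count : ∀ S : Type 1, Countable S → Countable (Q S)
  /-- projections -/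
  proj : ∀ (S : Type 1) (B : Itp S), BLaws B → ∀ (k n : ℕ) (u : Fin k → Fin n) (q : Q S),
    ∃ τ : Q S, ∀ (s : ℕ → ℕ → Prop) (v : ℕ), s v v → ∀ z : Fin k → ℕ, (∀ i, s v (z i)) →
      (τ.sat B s v (ext v z) ↔ ∃ z' : Fin n → ℕ, (∀ i, s v (z' i)) ∧ q.sat B s v (ext v z') ∧
        z' ∘ u = z)
  /-- transfer of a formula between cones with the same theory -/
  tr : ∀ (S : Type 1) (B : Itp S), BLaws B → ∀ (s : ℕ → ℕ → Prop) (a b : ℕ), s a a → s b b →
    SameTp B s (k := 0) a Fin.elim0 b Fin.elim0 → ∀ (k : ℕ) (τ : Q S),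
      (∃ c : Fin k → ℕ, (∀ i, s a (c i)) ∧ τ.sat B s a (ext a c)) →
      ∃ d : Fin k → ℕ, (∀ i, s b (d i)) ∧ τ.sat B s b (ext b d)
  /-- transfer of an isolating formula -/
  iso : ∀ (S : Type 1) (B : Itp S), BLaws B → ∀ (s : ℕ → ℕ → Prop) (a b : ℕ), s a a → s b b →
    SameTp B s (k := 0) a Fin.elim0 b Fin.elim0 → ∀ (k : ℕ) (c d : Fin k → ℕ) (τ : Q S),
      (∀ i, s a (c i)) → (∀ i, s b (d i)) → τ.sat B s a (ext a c) →
      (∀ z : Fin k → ℕ, (∀ i, s a (z i)) → τ.sat B s a (ext a z) → SameTp B s a z a c) →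
      τ.sat B s b (ext b d) →
      SameTp B s a c b d ∧ ∀ z : Fin k → ℕ, (∀ i, s b (z i)) → τ.sat B s b (ext b z) →
        SameTp B s b z b d
  /-- sub-tuples of tuples with isolated type -/
  sub : ∀ (S : Type 1) (B : Itp S), BLaws B → ∀ (s : ℕ → ℕ → Prop) (v : ℕ), s v v →
    ∀ (k m : ℕ) (u : Fin m → Fin k) (c : Fin k → ℕ), (∀ i, s v (c i)) → Isol B s v c →
      Isol B s v (c ∘ u)
  /-- atomic cones with the same theory are isomorphic -/
  cone : ∀ (S : Type 1) (B : Itp S), BLaws B → ∀ (s : ℕ → ℕ → Prop) (a b : ℕ), s a a → s b b →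
    SameTp B s (k := 0) a Fin.elim0 b Fin.elim0 → Atomic B s a → Atomic B s b → ConeIso s a b

def QB_stmt : Prop := QA → QLaws

/-! ### L1 and NM: types in incomparable cones -/

/-- equal types in incomparable cones are isolated -/
def L1 (α : Ordinal.{0}) (r : T → T → Prop) (s : ℕ → ℕ → Prop) : Prop :=
  ∀ a b : ℕ, ¬ s a b → ¬ s b a → ∀ (k : ℕ) (c d : Fin k → ℕ), (∀ i, s a (c i)) →
    (∀ i, s b (d i)) → SameTp (Bs (α := α) r) s a c b d → Isol (Bs (α := α) r) s a c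

/-- incomparable cones with the same theory are both atomic or both not -/
def NM (α : Ordinal.{0}) (r : T → T → Prop) (s : ℕ → ℕ → Prop) : Prop :=
  ∀ a b : ℕ, ¬ s a b → ¬ s b a → SameTp (Bs (α := α) r) s (k := 0) a Fin.elim0 b Fin.elim0 →
    Atomic (Bs (α := α) r) s a → Atomic (Bs (α := α) r) s b

def L1NM_stmt : Prop := FVcomb → FVsplit → QLaws → ∀ (T : Type) (α : Ordinal.{0})
  (r : T → T → Prop) (s : ℕ → ℕ → Prop), IsForest r → IsForest s →
    (∀ k, Truth α r s (PTE α r k)) → (∀ k, Truth α r s (PNM α r k)) →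
      L1 α r s ∧ NM α r s

/-! ### DEF: definability of types -/

/-- types of tuples in cones are defined by `Π_α` formulas -/
def TD (α : Ordinal.{0}) (r : T → T → Prop) (s : ℕ → ℕ → Prop) : Prop :=
  ∀ (k : ℕ) (v : ℕ) (c : Fin k → ℕ), PiDef s α (fun f : Fin (k + 1) → ℕ =>
    SameTp (Bs (α := α) r) s v c (f 0) (fun i => f i.succ))

def DEF_stmt : Prop := FM → RD → (∀ S : Type 1, Countable S → Countable (Q S)) →
  ∀ (T : Type) [Countable T] (α : Ordinal.{0}), 2 ≤ α → (Set.Iio α).Countable →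
  ∀ (r : T → T → Prop) (s : ℕ → ℕ → Prop), (∀ k q, Truth α r s (PQ (α := α) r k q)) →
    TD α r s

/-! ### SW: automorphisms of trees -/

def SW : Prop := ∀ (s : ℕ → ℕ → Prop), IsTree s → ∀ (n : ℕ) (F F' : Fin n → ℕ),
  Function.Injective F → SameQf s F s F' →
  (∀ i y, s y (F i) → ∃ j, j ≤ i ∧ F j = y) → (∀ i y, s y (F' i) → ∃ j, j ≤ i ∧ F' j = y) →
  (∀ i, ConeIso s (F i) (F' i)) → Orbit s F F'

/-! ### INV: automorphisms preserve types -/

def INV : Prop := ∀ (T : Type) (α : Ordinal.{0}) (r : T → T → Prop) (s : ℕ → ℕ → Prop)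
  (g : s ≃r s) (k : ℕ) (v : ℕ) (c : Fin k → ℕ),
    SameTp (Bs (α := α) r) s v c (g v) (fun i => g (c i))

/-! ### ORB: orbits are `Σ_{α+1}` -/

def ORB_stmt : Prop := FM → SW → QLaws → INV → ∀ (T : Type) (α : Ordinal.{0}), 2 ≤ α →
  ∀ (r : T → T → Prop) (s : ℕ → ℕ → Prop), IsTree s → L1 α r s → NM α r s → TD α r s →
    ∀ (n : ℕ) (a : Fin n → ℕ), SigDef s (α + 1) (Orbit s a)

end Pool.Agent.W889.SR
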