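import Mathlib
import Pool.Agent.W889.SR.Stm

/-!
# Statements of the parts of the lower bound at limit levels (project SR2)
-/

set_option autoImplicit false

namespace Pool.Agent.W889.SR

open Set Ordinal

/-- `c` is a child of `x` -/
def Ch {A : Type} (r : A → A → Prop) (x c : A) : Prop :=
  r x c ∧ x ≠ c ∧ ∀ z, r x z → r z c → z = x ∨ z = c

/-- the cones of `x` and `y` are equivalent at level `γ` -/
def CE {A B : Type} (γ : Ordinal.{0}) (r : A → A → Prop) (x : A) (s : B → B → Prop) (y : B) :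
    Prop :=
  BF γ r {z | r x z} (fun _ : Unit => x) s {z | s y z} (fun _ : Unit => y) ∧
    BF γ s {z | s y z} (fun _ : Unit => y) r {z | r x z} (fun _ : Unit => x)

/-- the cones of `x` and `y` are equivalent at all levels below `l` -/
def CL {A B : Type} (l : Ordinal.{0}) (r : A → A → Prop) (x : A) (s : B → B → Prop) (y : B) :
    Prop := ∀ γ, γ < l → CE γ r x s y

/-- limit ordinals -/
def Lim (l : Ordinal.{0}) : Prop := 0 < l ∧ ∀ γ, γ < l → γ + 1 < l

/-- laws of the equivalence of cones -/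
structure CELaws : Prop where
  refl : ∀ (γ : Ordinal.{0}) (A : Type) (r : A → A → Prop) (x : A), CE γ r x r x
  symm : ∀ (γ : Ordinal.{0}) (A B : Type) (r : A → A → Prop) (x : A) (s : B → B → Prop) (y : B),
    CE γ r x s y → CE γ s y r x
  trans : ∀ (γ : Ordinal.{0}) (A B C : Type) (r : A → A → Prop) (x : A) (s : B → B → Prop)
    (y : B) (t : C → C → Prop) (z : C), CE γ r x s y → CE γ s y t z → CE γ r x t z
  mono : ∀ (γ γ' : Ordinal.{0}), γ' ≤ γ → ∀ (A B : Type) (r : A → A → Prop) (x : A)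
    (s : B → B → Prop) (y : B), CE γ r x s y → CE γ' r x s y
  /-- children are matched -/
  child : ∀ (γ : Ordinal.{0}) (A B : Type) (r : A → A → Prop) (s : B → B → Prop), IsForest r →
    IsForest s → ∀ (x : A) (y : B) (c : A), CE (γ + 2) r x s y → Ch r x c →
      ∃ d, Ch s y d ∧ CE γ r c s d
  /-- roots of trees -/
  root : ∀ (γ : Ordinal.{0}) (A B : Type) (r : A → A → Prop) (s : B → B → Prop), IsTree r →
    IsTree s → ∀ (x : A) (y : B), (∀ z, r x z) → (∀ z, s y z) →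
      BF (γ + 2) r univ (Fin.elim0 : Fin 0 → A) s univ (Fin.elim0 : Fin 0 → B) →
      BF (γ + 2) s univ (Fin.elim0 : Fin 0 → B) r univ (Fin.elim0 : Fin 0 → A) → CE γ r x s y
  /-- embeddings -/
  emb : ∀ (γ : Ordinal.{0}) (A B : Type) (r : A → A → Prop) (s : B → B → Prop) (g : A → B)
    (U : Set A) (V : Set B), Function.Injective g → (∀ x y, r x y ↔ s (g x) (g y)) →
    (∀ x ∈ U, g x ∈ V) → (∀ y ∈ V, ∃ x ∈ U, g x = y) → ∀ (ι : Type) (a : ι → A),
      BF γ r U a s V (g ∘ a) ∧ BF γ s V (g ∘ a) r U a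
  /-- every element above `x` is above a child of `x` -/
  exc : ∀ (A : Type) (r : A → A → Prop), IsTree r → ∀ x z, r x z → x ≠ z →
    ∃ c, Ch r x c ∧ r c z

/-! ### FR: composition at a node -/

open Classical in
/-- projection to the cone of `x` -/
noncomputable def prj {A : Type} (r : A → A → Prop) (x z : A) : A := if r x z then z else x

/-- the tuples `a` and `b` are matched along the list `m` of pairs of children of `x` and `y` -/
structure Mtch (γ : Ordinal.{0}) {A B : Type} (r : A → A → Prop) (s : B → B → Prop) (x : A)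
    (y : B) (P : Set A) (Q : Set B) {ι : Type} (a : ι → A) (b : ι → B) (m : List (A × B)) :
    Prop where
  mem : ∀ p ∈ m, p.1 ∈ P ∧ p.2 ∈ Q
  inj : ∀ p ∈ m, ∀ q ∈ m, p.1 = q.1 ↔ p.2 = q.2
  cov : ∀ i, (a i = x ∧ b i = y) ∨ ∃ p ∈ m, r p.1 (a i) ∧ s p.2 (b i)
  iff : ∀ p ∈ m, ∀ i, r p.1 (a i) ↔ s p.2 (b i)
  bf : ∀ p ∈ m, BF γ r {z | r p.1 z} (fun o : Option ι => o.elim p.1 (fun i => prj r p.1 (a i)))
    s {z | s p.2 z} (fun o : Option ι => o.elim p.2 (fun i => prj s p.2 (b i)))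

def FR_stmt : Prop := ∀ (γ : Ordinal.{0}) (A B : Type) (r : A → A → Prop) (s : B → B → Prop),
  IsForest r → IsForest s → ∀ (x : A) (y : B) (P : Set A) (Q : Set B), (∀ c ∈ P, Ch r x c) →
  (∀ d ∈ Q, Ch s y d) → (∀ c ∈ P, {d | d ∈ Q ∧ CE γ r c s d}.Infinite) →
  (∀ d ∈ Q, {c | c ∈ P ∧ CE γ r c s d}.Infinite) → ∀ (ι : Type) (a : ι → A) (b : ι → B)
  (m : List (A × B)), Mtch γ r s x y P Q a b m →
    BF γ r {z | z = x ∨ ∃ c ∈ P, r c z} a s {z | z = y ∨ ∃ d ∈ Q, s d z} b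

/-! ### FAT: trees of ordinal rank with infinite multiplicities -/

structure Fat {X : Type} (r : X → X → Prop) (rk : X → Ordinal.{0}) : Prop where
  tree : IsTree r
  lt : ∀ x c, Ch r x c → rk c < rk x
  inf : ∀ x (σ : Ordinal.{0}), σ < rk x → {c | Ch r x c ∧ rk c = σ}.Infinite

def FAT_stmt : Prop := ∀ (X : Type) (r : X → X → Prop) (rk : X → Ordinal.{0}), Fat r rk →
  ∀ (δ : Ordinal.{0}) (x y : X), (rk x = rk y ∨ (ω * δ ≤ rk x ∧ ω * δ ≤ rk y)) → CE δ r x r y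

def FATEX_stmt : Prop := ∀ Ω : Ordinal.{0}, (Set.Iio Ω).Countable →
  ∃ (X : Type) (_ : Countable X) (r : X → X → Prop) (rk : X → Ordinal.{0}), Fat r rk ∧
    ∃ o, rk o = Ω

/-! ### SEQ: a sequence of trees converging below `l` -/

structure SeqData (l : Ordinal.{0}) {X : Type} (r : X → X → Prop) (h : ℕ → X)
    (g d : ℕ → Ordinal.{0}) : Prop where
  g_lt : ∀ n, g n < l
  d_lt : ∀ n, d n < l
  cof : ∀ γ, γ < l → ∃ n, γ ≤ g n
  eq : ∀ n m, n ≤ m → CE (g n) r (h n) r (h m)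
  ne : ∀ n m, n < m → ¬ CE (d n) r (h n) r (h m)

def SEQ_stmt : Prop := CELaws → FAT_stmt → FATEX_stmt → ∀ l : Ordinal.{0}, Lim l →
  (Set.Iio l).Countable → ∃ (X : Type) (_ : Countable X) (r : X → X → Prop) (h : ℕ → X)
    (g d : ℕ → Ordinal.{0}), IsTree r ∧ SeqData l r h g d

/-! ### SUM: trees with prescribed cones at the children of the root -/

def SUM_stmt : Prop := CELaws → ∀ (J : Type) [Countable J] (X : J → Type) [∀ j, Countable (X j)]
  (r : (j : J) → X j → X j → Prop) (h : (j : J) → X j), (∀ j, IsTree (r j)) →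
  ∃ (Y : Type) (_ : Countable Y) (s : Y → Y → Prop) (o : Y) (c : J → ℕ → Y), IsTree s ∧
    (∀ y, s o y) ∧ (∀ y, Ch s o y ↔ ∃ j n, c j n = y) ∧
    (∀ j n j' n', c j n = c j' n' → j = j' ∧ n = n') ∧ ∀ j n γ, CE γ (r j) (h j) s (c j n)

/-! ### M0: a tree with no isolated child of the root -/

def M0_stmt : Prop := CELaws → FR_stmt → SUM_stmt → ∀ l : Ordinal.{0}, Lim l →
  ∀ (X : Type) [Countable X] (r : X → X → Prop) (h : ℕ → X) (g d : ℕ → Ordinal.{0}),
  IsTree r → SeqData l r h g d → ∃ (M : Type) (_ : Countable M) (s : M → M → Prop) (o : M),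
    IsTree s ∧ (∀ x, s o x) ∧ (∃ c, Ch s o c) ∧ ∀ γ, γ < l → ∃ γ', γ' < l ∧ ∀ c, Ch s o c →
      ∃ c', Ch s o c' ∧ CE γ s c s c' ∧ ¬ CE γ' s c s c'

/-! ### FORM: a `Π_l` sentence for equivalence below `l` -/

def FORM_stmt : Prop := FM → ∀ l : Ordinal.{0}, Lim l → (Set.Iio l).Countable →
  ∀ (A : Type) [Countable A] [Nonempty A] (r : A → A → Prop), ∃ φ : Fml 0, φ.IsPi l ∧
    ∀ (B : Type) (s : B → B → Prop), Sat s φ ↔ ∀ γ, γ < l →
      BF γ r univ (Fin.elim0 : Fin 0 → A) s univ (Fin.elim0 : Fin 0 → B) ∧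
      BF γ s univ (Fin.elim0 : Fin 0 → B) r univ (Fin.elim0 : Fin 0 → A)

/-! ### TRANS: transfer of the absence of isolated children -/

def TRANS_stmt : Prop := CELaws → ∀ l : Ordinal.{0}, Lim l → ∀ (M B : Type)
  (s : M → M → Prop) (t : B → B → Prop) (o : M) (o' : B), IsTree s → IsTree t →
  CL l s o t o' → (∃ c, Ch s o c) → (∀ γ, γ < l → ∃ γ', γ' < l ∧ ∀ c, Ch s o c →
      ∃ c', Ch s o c' ∧ CE γ s c s c' ∧ ¬ CE γ' s c s c') →
    (∃ c, Ch t o' c) ∧ ∀ c, Ch t o' c → ∀ γ, γ < l → ∃ c', Ch t o' c' ∧ CE γ t c t c' ∧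
      ¬ CL l t c t c'

/-! ### LOW: no `Π_{l+1}` Scott sentence -/

def LOW_stmt : Prop := CELaws → FR_stmt → K1 → ∀ l : Ordinal.{0}, Lim l → ∀ (B : Type)
  [Countable B] (t : B → B → Prop) (o : B), IsTree t → (∀ z, t o z) → (∃ c, Ch t o c) →
  (∀ c, Ch t o c → ∀ γ, γ < l → ∃ c', Ch t o c' ∧ CE γ t c t c' ∧ ¬ CL l t c t c') →
    ¬ ∃ ψ : Fml 0, ψ.IsPi (l + 1) ∧ IsScott t ψ

/-! ### SCOTT: every countable structure has a Scott sentence -/

def SCOTT_stmt : Prop := FM → K1 → K2 → K3 → ∀ (M : Type) [Countable M] [Nonempty M]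
  (s : M → M → Prop), (scottSet s).Nonempty

end Pool.Agent.W889.SR
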