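import Mathlib
import Pool.Agent.W889.SR.Stm

/-!
# Existence of generic structures (project SR)
-/

set_option autoImplicit false

namespace Pool.Agent.W889.SR

open Set Ordinal

theorem chain_exists {C : Type*} (le : C → C → Prop) (hrefl : ∀ c, le c c)
    (htrans : ∀ a b c, le a b → le b c → le a c) (c₀ : C) {I : Type*} [Countable I]
    (D : I → C → Prop) (hD : ∀ i c, ∃ c', le c' c ∧ D i c') :
    ∃ c : ℕ → C, (∀ m n, m ≤ n → le (c n) (c m)) ∧ ∀ i m, ∃ n, m ≤ n ∧ D i (c n) := by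
  classical
  by_cases hI : Nonempty I
  · obtain ⟨e, he⟩ := exists_surjective_nat I
    choose g hg using hD
    let c : ℕ → C := fun n => Nat.rec c₀ (fun n x => g (e n.unpair.1) x) n
    have hc : ∀ n, c (n + 1) = g (e n.unpair.1) (c n) := fun n => rfl
    refine ⟨c, ?_, ?_⟩
    · intro m n hmn
      induction n, hmn using Nat.le_induction with
      | base => exact hrefl _
      | succ n _ ih =>
        refine htrans _ _ _ ?_ ih
        rw [hc]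
        exact (hg _ _).1
    · intro i m
      obtain ⟨j, rfl⟩ := he i
      refine ⟨Nat.pair j m + 1, (Nat.right_le_pair j m).trans (Nat.le_succ _), ?_⟩
      rw [hc, Nat.unpair_pair]
      exact (hg _ _).2
  · exact ⟨fun _ => c₀, fun _ _ _ => hrefl _, fun i => (hI ⟨i⟩).elim⟩

theorem countable_cond (T : Type) [Countable T] (α : Ordinal.{0}) (hα : (Set.Iio α).Countable) :
    Countable (Cond T α) := by
  have : Countable (Set.Iio α) := hα.to_subtype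
  have hinj : Function.Injective
      (fun p : Cond T α => ((⟨⟨p.n, p.e⟩, ⟨p.β, p.lt⟩⟩ : (Σ n : ℕ, Fin n → T) × Set.Iio α))) := by
    rintro ⟨n, e, β, h1, h2⟩ ⟨n', e', β', h1', h2'⟩ h
    simp only [Prod.mk.injEq, Sigma.mk.injEq] at h
    obtain ⟨⟨rfl, h⟩, hβ⟩ := h
    have hβ' : β = β' := congrArg Subtype.val hβ
    subst hβ'
    cases h
    rfl
  exact hinj.countable

/-- numbered conditions -/
structure NC (T : Type) (α : Ordinal.{0}) where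
  N : ℕ
  h : ℕ → T
  inj : ∀ i j, i < N → j < N → h i = h j → i = j
  β : Ordinal.{0}
  one_le : 1 ≤ β
  lt : β < α

variable {T : Type} {α : Ordinal.{0}}

def NC.Le (r : T → T → Prop) (c' c : NC T α) : Prop :=
  c.N ≤ c'.N ∧ c.β ≤ c'.β ∧
    BF c.β r univ (fun i : Fin c.N => c.h i) r univ (fun i : Fin c.N => c'.h i)

theorem NC.Le.refl (r : T → T → Prop) (c : NC T α) : NC.Le r c c :=
  ⟨le_rfl, le_rfl, BF.refl _ _ _ _⟩

theorem NC.Le.bf {r : T → T → Prop} {c' c : NC T α} (h : NC.Le r c' c) {ι : Type} (u : ι → ℕ)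
    (hu : ∀ i, u i < c.N) : BF c.β r univ (c.h ∘ u) r univ (c'.h ∘ u) :=
  h.2.2.reindex (fun i : ι => (⟨u i, hu i⟩ : Fin c.N))

theorem NC.Le.trans (r : T → T → Prop) (a b c : NC T α) (h : NC.Le r a b) (h' : NC.Le r b c) :
    NC.Le r a c :=
  ⟨h'.1.trans h.1, h'.2.1.trans h.2.1, h'.2.2.trans
    ((h.bf (fun i : Fin c.N => (i : ℕ)) (fun i => lt_of_lt_of_le i.2 h'.1)).mono h'.2.1)⟩

/-- appending elements -/
def NC.App (c' c : NC T α) : Prop := c'.β = c.β ∧ c.N ≤ c'.N ∧ ∀ i, i < c.N → c'.h i = c.h i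

theorem NC.App.refl (c : NC T α) : NC.App c c := ⟨rfl, le_rfl, fun _ _ => rfl⟩

theorem NC.App.trans {a b c : NC T α} (h : NC.App a b) (h' : NC.App b c) : NC.App a c :=
  ⟨h.1.trans h'.1, h'.2.1.trans h.2.1, fun i hi =>
    (h.2.2 i (lt_of_lt_of_le hi h'.2.1)).trans (h'.2.2 i hi)⟩

theorem NC.App.le (r : T → T → Prop) {c' c : NC T α} (h : NC.App c' c) : NC.Le r c' c := by
  refine ⟨h.2.1, h.1.ge, ?_⟩
  have : (fun i : Fin c.N => c'.h i) = (fun i : Fin c.N => c.h i) :=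
    funext fun i => h.2.2 i i.2
  rw [this]
  exact BF.refl _ _ _ _

theorem NC.app_one (c : NC T α) (t : T) : ∃ c' : NC T α, NC.App c' c ∧ ∃ x, x < c'.N ∧
    c'.h x = t := by
  classical
  by_cases h : ∃ x, x < c.N ∧ c.h x = t
  · exact ⟨c, NC.App.refl c, h⟩
  · push Not at h
    refine ⟨⟨c.N + 1, Function.update c.h c.N t, ?_, c.β, c.one_le, c.lt⟩,
      ⟨rfl, Nat.le_succ _, fun i hi => Function.update_of_ne hi.ne _ _⟩,
      c.N, Nat.lt_succ_self _, Function.update_self _ _ _⟩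
    intro i j hi hj hij
    rcases Nat.lt_succ_iff_lt_or_eq.1 hi with hi | rfl <;>
      rcases Nat.lt_succ_iff_lt_or_eq.1 hj with hj | hj
    · rw [Function.update_of_ne hi.ne, Function.update_of_ne hj.ne] at hij
      exact c.inj i j hi hj hij
    · subst hj
      rw [Function.update_of_ne hi.ne, Function.update_self] at hij
      exact (h i hi hij).elim
    · rw [Function.update_of_ne hj.ne, Function.update_self] at hij
      exact (h j hj hij.symm).elim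
    · exact hj.symm

theorem NC.app_fin (c : NC T α) : ∀ (k : ℕ) (d : Fin k → T), ∃ c' : NC T α, NC.App c' c ∧
    ∃ X : Fin k → ℕ, (∀ i, X i < c'.N) ∧ ∀ i, c'.h (X i) = d i := by
  intro k
  induction k with
  | zero => exact fun d => ⟨c, NC.App.refl c, Fin.elim0, fun i => i.elim0, fun i => i.elim0⟩
  | succ k ih =>
    intro d
    obtain ⟨c1, h1, X, hX, hXd⟩ := ih (fun i => d i.castSucc)
    obtain ⟨c2, h2, x, hx, hxd⟩ := c1.app_one (d (Fin.last k))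
    refine ⟨c2, h2.trans h1, Fin.snoc X x, fun i => ?_, fun i => ?_⟩
    · refine Fin.lastCases ?_ (fun i => ?_) i
      · simpa using hx
      · simpa using lt_of_lt_of_le (hX i) h2.2.1
    · refine Fin.lastCases ?_ (fun i => ?_) i
      · simpa using hxd
      · simpa using (h2.2.2 _ (hX i)).trans (hXd i)

theorem NC.app_large [Infinite T] (c : NC T α) (m : ℕ) : ∃ c' : NC T α, NC.App c' c ∧
    m ≤ c'.N := by
  classical
  induction m with
  | zero => exact ⟨c, NC.App.refl c, Nat.zero_le _⟩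
  | succ m ih =>
    obtain ⟨c1, h1, hm⟩ := ih
    obtain ⟨t, ht⟩ := Infinite.exists_notMem_finset ((Finset.range c1.N).image c1.h)
    obtain ⟨c2, h2, x, hx, hxt⟩ := c1.app_one t
    refine ⟨c2, h2.trans h1, ?_⟩
    by_contra hlt
    have h3 : x < c1.N := by omega
    apply ht
    rw [Finset.mem_image]
    exact ⟨x, Finset.mem_range.2 h3, (h2.2.2 x h3).symm.trans hxt⟩

theorem NC.raise (r : T → T → Prop) (c : NC T α) (γ : Ordinal.{0}) (hγ : γ < α) :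
    ∃ c' : NC T α, NC.Le r c' c ∧ γ ≤ c'.β ∧ c'.N = c.N ∧ c'.h = c.h :=
  ⟨⟨c.N, c.h, c.inj, max c.β γ, le_max_of_le_left c.one_le, max_lt c.lt hγ⟩,
    ⟨le_rfl, le_max_left _ _, BF.refl _ _ _ _⟩, le_max_right _ _, rfl, rfl⟩

theorem NC.enlarge [Infinite T] (r : T → T → Prop) (c : NC T α) (m : ℕ) (γ : Ordinal.{0})
    (hγ : γ < α) : ∃ c' : NC T α, NC.Le r c' c ∧ m ≤ c'.N ∧ γ ≤ c'.β := by
  obtain ⟨c1, h1, h1'⟩ := c.app_large m
  obtain ⟨c2, h2, h2', h3, h4⟩ := c1.raise r γ hγ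
  exact ⟨c2, NC.Le.trans r _ _ _ h2 (h1.le r), h3 ▸ h1', h2'⟩

theorem bound_fin {k : ℕ} (f : Fin k → ℕ) : ∃ m, ∀ i, f i < m :=
  ⟨Finset.univ.sup f + 1, fun i => Nat.lt_succ_of_le (Finset.le_sup (Finset.mem_univ i))⟩

/-- the dense sets -/
def DS2 (r : T → T → Prop) (N : ℕ) (e : Fin N → T) (l γ : Ordinal.{0}) (k : ℕ) (c : Fin k → T)
    (c' : NC T α) : Prop :=
  N ≤ c'.N ∧ (BF l r univ (fun i : Fin N => c'.h i) r univ e → ∃ X : Fin k → ℕ,
    (∀ i, X i < c'.N) ∧ BF γ r univ (Sum.elim e c) r univ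
      (Sum.elim (fun i : Fin N => c'.h i) (c'.h ∘ X)))

def DS3 (r : T → T → Prop) (p : Cond T α) (f : Fin p.n → ℕ) (c' : NC T α) : Prop :=
  (∀ i, f i < c'.N) ∧ p.β ≤ c'.β ∧ (BF p.β r univ p.e r univ (c'.h ∘ f) ∨
    ¬ SameQf r p.e r (c'.h ∘ f) ∨ ∃ γ, γ < p.β ∧ ∃ (k : ℕ) (X : Fin k → ℕ),
      (∀ i, X i < c'.N) ∧ ∀ Y : Fin k → T, ¬ BF γ r univ (Sum.elim (c'.h ∘ f) (c'.h ∘ X)) r univ
        (Sum.elim p.e Y))

def DS4 (r : T → T → Prop) (W : Task T α) (p : Cond T α) (f : Fin p.n → ℕ) (c' : NC T α) :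
    Prop :=
  (∀ i, f i < c'.N) ∧ p.β ≤ c'.β ∧ (BF p.β r univ p.e r univ (c'.h ∘ f) →
    ∃ (q : Cond T α) (ρ : Fin p.n → Fin q.n) (f' : Fin q.n → ℕ), (∀ j, f' j < c'.N) ∧
      W p q ρ ∧ Ext r q p ρ ∧ f' ∘ ρ = f ∧ q.β ≤ c'.β ∧
      BF q.β r univ q.e r univ (c'.h ∘ f'))

theorem ds2_dense [Infinite T] (r : T → T → Prop) (N : ℕ) (e : Fin N → T) (l γ : Ordinal.{0})
    (hγ : γ < l) (k : ℕ) (d : Fin k → T) (c : NC T α) : ∃ c', NC.Le r c' c ∧
      DS2 r N e l γ k d c' := by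
  obtain ⟨c1, h1, h1'⟩ := c.app_large N
  by_cases hbf : BF l r univ (fun i : Fin N => c1.h i) r univ e
  · rw [BF_iff] at hbf
    obtain ⟨c'', -, hc''⟩ := hbf.2 γ hγ k d (fun _ => mem_univ _)
    obtain ⟨c2, h2, X, hX, hXd⟩ := c1.app_fin k c''
    have e1 : (fun i : Fin N => c2.h i) = (fun i : Fin N => c1.h i) :=
      funext fun i => h2.2.2 i (lt_of_lt_of_le i.2 h1')
    have e2 : c2.h ∘ X = c'' := funext hXd
    refine ⟨c2, (h2.trans h1).le r, h1'.trans h2.2.1, fun _ => ⟨X, hX, ?_⟩⟩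
    rw [e1, e2]
    exact hc''
  · exact ⟨c1, h1.le r, h1', fun h => (hbf h).elim⟩

theorem ds3_dense [Infinite T] (r : T → T → Prop) (p : Cond T α) (f : Fin p.n → ℕ)
    (c : NC T α) : ∃ c', NC.Le r c' c ∧ DS3 r p f c' := by
  obtain ⟨m, hm⟩ := bound_fin f
  obtain ⟨c1, h1, h1', h1''⟩ := c.enlarge r m p.β p.lt
  have hf : ∀ i, f i < c1.N := fun i => lt_of_lt_of_le (hm i) h1'
  by_cases hbf : BF p.β r univ p.e r univ (c1.h ∘ f)
  · exact ⟨c1, h1, hf, h1'', Or.inl hbf⟩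
  by_cases hqf : SameQf r p.e r (c1.h ∘ f)
  · rw [BF_iff] at hbf
    push Not at hbf
    obtain ⟨γ, hγ, k, d, -, hd⟩ := hbf hqf
    obtain ⟨c2, h2, X, hX, hXd⟩ := c1.app_fin k d
    have e1 : c2.h ∘ f = c1.h ∘ f := funext fun i => h2.2.2 _ (hf i)
    have e2 : c2.h ∘ X = d := funext hXd
    refine ⟨c2, NC.Le.trans r _ _ _ (h2.le r) h1, fun i => lt_of_lt_of_le (hf i) h2.2.1,
      h2.1.symm ▸ h1'', Or.inr (Or.inr ⟨γ, hγ, k, X, hX, fun Y hY => ?_⟩)⟩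
    rw [e1, e2] at hY
    exact hd Y (fun _ => mem_univ _) hY
  · exact ⟨c1, h1, hf, h1'', Or.inr (Or.inl hqf)⟩

theorem ds4_dense [Infinite T] (r : T → T → Prop) (W : Task T α) (hW : W.Dense r)
    (p : Cond T α) (f : Fin p.n → ℕ) (c : NC T α) : ∃ c', NC.Le r c' c ∧ DS4 r W p f c' := by
  classical
  obtain ⟨m, hm⟩ := bound_fin f
  obtain ⟨c1, h1, h1', h1''⟩ := c.enlarge r m p.β p.lt
  have hf : ∀ i, f i < c1.N := fun i => lt_of_lt_of_le (hm i) h1'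
  by_cases hbf : BF p.β r univ p.e r univ (c1.h ∘ f)
  swap
  · exact ⟨c1, h1, hf, h1'', fun h => (hbf h).elim⟩
  let t : Cond T α := ⟨c1.N, fun i => c1.h i, c1.β, c1.one_le, c1.lt⟩
  let σ : Fin p.n → Fin t.n := fun i => ⟨f i, hf i⟩
  obtain ⟨q, ρ, hWq, hq, u, τ, κ, hut, huq, hτκ⟩ := hW p t σ ⟨h1'', hbf⟩
  have hinj : ∀ i j : Fin c1.N, u.e (τ i) = u.e (τ j) → i = j := by
    intro i j hij
    have h := (hut.2.sameQf.2 i j).2 hij
    exact Fin.ext (c1.inj i j i.2 j.2 h)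
  let c2 : NC T α := ⟨c1.N, fun i => if hi : i < c1.N then u.e (τ ⟨i, hi⟩) else c1.h i, by
    intro i j hi hj hij
    rw [dif_pos hi, dif_pos hj] at hij
    exact congrArg Fin.val (hinj _ _ hij), u.β, u.one_le, u.lt⟩
  have h2v : ∀ (i : ℕ) (hi : i < c1.N), c2.h i = u.e (τ ⟨i, hi⟩) := fun i hi => dif_pos hi
  have h2 : NC.Le r c2 c1 := by
    refine ⟨le_rfl, hut.1, ?_⟩
    have e : (fun i : Fin c1.N => c2.h i) = u.e ∘ τ := funext fun i => h2v i i.2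
    rw [e]
    exact hut.2
  obtain ⟨c3, h3, X, hX, hXd⟩ := c2.app_fin u.n u.e
  refine ⟨c3, NC.Le.trans r _ _ _ (h3.le r) (NC.Le.trans r _ _ _ h2 h1),
    fun i => lt_of_lt_of_le (hf i) h3.2.1, ?_, fun _ => ⟨q, ρ, X ∘ κ, fun j => hX _, hWq, hq,
      funext fun i => ?_, ?_, ?_⟩⟩
  · rw [h3.1]
    exact h1''.trans hut.1
  · refine c3.inj _ _ (hX _) (lt_of_lt_of_le (hf i) h3.2.1) ?_
    have e1 : c3.h ((X ∘ κ ∘ ρ) i) = u.e (κ (ρ i)) := hXd _
    have e2 : u.e (κ (ρ i)) = u.e (τ (σ i)) := congrArg u.e (congrFun hτκ i).symm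
    have e3 : c3.h (f i) = c2.h (f i) := h3.2.2 _ (hf i)
    have e4 : c2.h (f i) = u.e (τ (σ i)) := h2v _ (hf i)
    exact e1.trans (e2.trans (e4.symm.trans e3.symm))
  · rw [h3.1]
    exact huq.1
  · have e : c3.h ∘ (X ∘ κ) = u.e ∘ κ := funext fun i => hXd _
    rw [e]
    exact huq.2

theorem ex : EX := by
  classical
  intro T hT hTi α hα hαc r W hW
  have : Countable (Set.Iio α) := hαc.to_subtype
  have : Countable (Cond T α) := countable_cond T α hαc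
  let D : (ℕ × Set.Iio α) ⊕ ((Σ N : ℕ, Fin N → T) × Set.Iio α × Set.Iio α × (Σ k : ℕ, Fin k → T))
      ⊕ (Σ p : Cond T α, Fin p.n → ℕ) ⊕ (ℕ × (Σ p : Cond T α, Fin p.n → ℕ)) → NC T α → Prop :=
    Sum.elim (fun x c => x.1 ≤ c.N ∧ x.2.1 ≤ c.β) (Sum.elim
      (fun x c => x.2.2.1.1 < x.2.1.1 → DS2 r x.1.1 x.1.2 x.2.1.1 x.2.2.1.1 x.2.2.2.1 x.2.2.2.2 c)
      (Sum.elim (fun x c => DS3 r x.1 x.2 c) (fun x c => DS4 r (W x.1) x.2.1 x.2.2 c)))
  have hD : ∀ i c, ∃ c', NC.Le r c' c ∧ D i c' := by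
    rintro (x | x | x | x) c
    · exact c.enlarge r x.1 x.2.1 x.2.2
    · by_cases hx : x.2.2.1.1 < x.2.1.1
      · obtain ⟨c', h, h'⟩ := ds2_dense r x.1.1 x.1.2 x.2.1.1 x.2.2.1.1 hx x.2.2.2.1 x.2.2.2.2 c
        exact ⟨c', h, fun _ => h'⟩
      · exact ⟨c, NC.Le.refl r c, fun h => (hx h).elim⟩
    · exact ds3_dense r x.1 x.2 c
    · exact ds4_dense r (W x.1) (hW x.1) x.2.1 x.2.2 c
  obtain ⟨t₀⟩ : Nonempty T := inferInstance
  have h1α : (1 : Ordinal.{0}) < α := lt_of_lt_of_le (by exact_mod_cast one_lt_two) hα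
  let c₀ : NC T α := ⟨0, fun _ => t₀, fun i j hi => absurd hi (Nat.not_lt_zero _), 1, le_rfl, h1α⟩
  obtain ⟨c, hc, hcD⟩ := chain_exists (NC.Le r) (NC.Le.refl r) (NC.Le.trans r) c₀ D hD
  -- the structure
  let s : ℕ → ℕ → Prop := fun i j => ∃ n, i < (c n).N ∧ j < (c n).N ∧ r ((c n).h i) ((c n).h j)
  have large : ∀ (m : ℕ) (γ : Ordinal.{0}), γ < α → ∀ n₀, ∃ n, n₀ ≤ n ∧ m ≤ (c n).N ∧
      γ ≤ (c n).β := fun m γ hγ n₀ => hcD (Sum.inl (m, ⟨γ, hγ⟩)) n₀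
  have hmn : ∀ m n, m ≤ n → ∀ i j, i < (c m).N → j < (c m).N →
      (r ((c m).h i) ((c m).h j) ↔ r ((c n).h i) ((c n).h j)) := by
    intro m n h i j hi hj
    exact (hc m n h).2.2.sameQf.1 ⟨i, hi⟩ ⟨j, hj⟩
  have hs : ∀ n i j, i < (c n).N → j < (c n).N → (r ((c n).h i) ((c n).h j) ↔ s i j) := by
    intro n i j hi hj
    constructor
    · exact fun h => ⟨n, hi, hj, h⟩
    · rintro ⟨m, hi', hj', h⟩
      rcases le_total m n with hle | hle
      · exact (hmn m n hle i j hi' hj').1 h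
      · exact (hmn n m hle i j hi hj).2 h
  -- F4
  have F4 : ∀ l : Ordinal.{0}, (∀ n, l ≤ (c n).β → ∀ (ι : Type) (u : ι → ℕ),
      (∀ i, u i < (c n).N) → BF l r univ ((c n).h ∘ u) s univ u) ∧
      (∀ n, l < (c n).β → ∀ (ι : Type) (u : ι → ℕ),
      (∀ i, u i < (c n).N) → BF l s univ u r univ ((c n).h ∘ u)) := by
    intro l
    induction l using Ordinal.induction with
    | h l ih =>
      have hsq : ∀ n (ι : Type) (u : ι → ℕ), (∀ i, u i < (c n).N) →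
          SameQf r ((c n).h ∘ u) s u := fun n ι u hu =>
        ⟨fun i j => hs n _ _ (hu i) (hu j), fun i j => ⟨fun h => (c n).inj _ _ (hu i) (hu j) h,
          fun h => congrArg (c n).h h⟩⟩
      constructor
      · intro n hn ι u hu
        rw [BF_iff]
        refine ⟨hsq n ι u hu, fun γ hγ k d _ => ?_⟩
        obtain ⟨m, hm⟩ := bound_fin d
        obtain ⟨n', hnn', hm', hβ'⟩ := large m (c n).β (c n).lt n
        have hd : ∀ i, d i < (c n').N := fun i => lt_of_lt_of_le (hm i) hm'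
        have hu' : ∀ i, u i < (c n').N := fun i => lt_of_lt_of_le (hu i) (hc n n' hnn').1
        have hb := (hc n n' hnn').bf u hu
        rw [BF_iff] at hb
        obtain ⟨e, -, he⟩ := hb.2 γ (lt_of_lt_of_le hγ hn) k ((c n').h ∘ d) (fun _ => mem_univ _)
        refine ⟨e, fun _ => mem_univ _, ?_⟩
        have h2 := (ih γ hγ).2 n' (lt_of_lt_of_le hγ (hn.trans hβ')) _ (Sum.elim u d)
          (by rintro (i | i); exacts [hu' i, hd i])
        rw [Sum.comp_elim] at h2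
        exact h2.trans he
      · intro n hn ι u hu
        rw [BF_iff]
        refine ⟨(hsq n ι u hu).symm, fun γ hγ k d _ => ?_⟩
        obtain ⟨n', hnn', hn'⟩ := hcD (Sum.inr (Sum.inl (⟨(c n).N, fun i => (c n).h i⟩,
          ⟨l, hn.trans (c n).lt⟩, ⟨γ, hγ.trans (hn.trans (c n).lt)⟩, ⟨k, d⟩))) n
        obtain ⟨hN, hX⟩ := hn' hγ
        obtain ⟨X, hX, hXbf⟩ := hX ((hc n n' hnn').2.2.swap hn)
        refine ⟨X, fun _ => mem_univ _, ?_⟩
        have hu' : ∀ i, u i < (c n').N := fun i => lt_of_lt_of_le (hu i) hN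
        have h1 := (ih γ hγ).1 n' (hγ.le.trans (hn.le.trans (hc n n' hnn').2.1)) _ (Sum.elim u X)
          (by rintro (i | i); exacts [hu' i, hX i])
        rw [Sum.comp_elim] at h1
        have h2 := hXbf.reindex (Sum.map (fun i : ι => (⟨u i, hu i⟩ : Fin (c n).N))
          (id : Fin k → Fin k))
        rw [Sum.elim_comp_map, Sum.elim_comp_map, Function.comp_id, Function.comp_id] at h2
        exact h2.trans h1
  -- F3
  have F3 : ∀ (p : Cond T α) (f : Fin p.n → ℕ), Rl r p s f → ∃ n₀, ∀ n, n₀ ≤ n →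
      (∀ i, f i < (c n).N) ∧ p.β ≤ (c n).β ∧ BF p.β r univ p.e r univ ((c n).h ∘ f) := by
    intro p f hf
    obtain ⟨n₀, -, h1, h2, h3⟩ := hcD (Sum.inr (Sum.inr (Sum.inl ⟨p, f⟩))) 0
    have key : BF p.β r univ p.e r univ ((c n₀).h ∘ f) := by
      have hf' := hf
      unfold Rl at hf'
      rcases h3 with h3 | h3 | ⟨γ, hγ, k, X, hX, h3⟩
      · exact h3
      · exact (h3 (hf'.sameQf.trans ((F4 0).1 n₀ zero_le _ f h1).sameQf.symm)).elim
      · exfalso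
        rw [BF_iff] at hf'
        obtain ⟨Y, -, hY⟩ := hf'.2 γ hγ k X (fun _ => mem_univ _)
        apply h3 Y
        have h4 := (F4 γ).1 n₀ (hγ.le.trans h2) _ (Sum.elim f X)
          (by rintro (i | i); exacts [h1 i, hX i])
        rw [Sum.comp_elim] at h4
        exact h4.trans hY
    refine ⟨n₀, fun n hn => ⟨fun i => lt_of_lt_of_le (h1 i) (hc n₀ n hn).1,
      h2.trans (hc n₀ n hn).2.1, key.trans (((hc n₀ n hn).bf f h1).mono h2)⟩⟩
  refine ⟨s, ?_, ?_, ?_⟩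
  · intro γ h1γ hγ
    obtain ⟨n, -, -, hn⟩ := large 0 γ hγ 0
    have h := (F4 γ).1 n hn (Fin 0) Fin.elim0 (fun i => i.elim0)
    have e : (c n).h ∘ (Fin.elim0 : Fin 0 → ℕ) = (Fin.elim0 : Fin 0 → T) :=
      funext fun i => i.elim0
    rwa [e] at h
  · intro p f hf m g γ hγ
    obtain ⟨n₀, hn₀⟩ := F3 p f hf
    obtain ⟨m', hm'⟩ := bound_fin g
    obtain ⟨n, hn, hN, hβ⟩ := large m' γ hγ n₀
    obtain ⟨h1, h2, h3⟩ := hn₀ n hn
    refine ⟨⟨(c n).N, fun i => (c n).h i, (c n).β, (c n).one_le, (c n).lt⟩,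
      fun i => ⟨f i, h1 i⟩, fun i => ⟨g i, lt_of_lt_of_le (hm' i) hN⟩, fun i => i, ⟨h2, h3⟩, hβ,
      ?_, rfl, rfl⟩
    exact (F4 (c n).β).1 n le_rfl _ (fun i : Fin (c n).N => (i : ℕ)) (fun i => i.2)
  · intro i p f hf
    obtain ⟨n₀, hn₀⟩ := F3 p f hf
    obtain ⟨n, hn, h1, h2, h3⟩ := hcD (Sum.inr (Sum.inr (Sum.inr (i, ⟨p, f⟩)))) n₀
    obtain ⟨q, ρ, f', hf', hWq, hq, hρ, hβ, hbf⟩ := h3 (hn₀ n hn).2.2
    exact ⟨q, ρ, f', hWq, hq, hbf.trans ((F4 q.β).1 n hβ _ f' hf'), hρ⟩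

end Pool.Agent.W889.SR
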