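import Mathlib
import Pool.Agent.W889.SR.Ex

/-!
# Densely decided predicates; generic structures deciding countably many predicates (project SR)
-/

set_option autoImplicit false

namespace Pool.Agent.W889.SR

open Set Ordinal

variable {T : Type} {α : Ordinal.{0}}

/-- trivial task -/
def triv : Task T α := fun _ _ _ => True

theorem triv_dense (r : T → T → Prop) : (triv : Task T α).Dense r := fun _ t σ h =>
  ⟨t, σ, trivial, h, t, id, id, Ext.refl _ _, Ext.refl _ _, rfl⟩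

/-- a task at one condition -/
def TaskAt (p : Cond T α) (R : (q : Cond T α) → (Fin p.n → Fin q.n) → Prop) : Task T α :=
  fun p' q ρ => ∀ h : p = p', R q (fun i => ρ (h ▸ i))

theorem taskAt_dense (r : T → T → Prop) (p : Cond T α)
    (R : (q : Cond T α) → (Fin p.n → Fin q.n) → Prop)
    (h : ∀ (t : Cond T α) (σ : Fin p.n → Fin t.n), Ext r t p σ →
      ∃ (q : Cond T α) (ρ : Fin t.n → Fin q.n), Ext r q t ρ ∧ R q (ρ ∘ σ)) :
    (TaskAt p R).Dense r := by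
  intro p' t σ ht
  by_cases hp : p = p'
  · subst hp
    obtain ⟨q, ρ, hq, hR⟩ := h t σ ht
    exact ⟨q, ρ ∘ σ, fun _ => hR, hq.trans ht, q, ρ, id, hq, Ext.refl _ _, rfl⟩
  · exact ⟨t, σ, fun h' => (hp h').elim, ht, t, id, id, Ext.refl _ _, Ext.refl _ _, rfl⟩

theorem taskAt_meets {r : T → T → Prop} {s : ℕ → ℕ → Prop} {p : Cond T α}
    {R : (q : Cond T α) → (Fin p.n → Fin q.n) → Prop} (h : Meets r s (TaskAt p R))
    {f : Fin p.n → ℕ} (hf : Rl r p s f) : ∃ (q : Cond T α) (ρ : Fin p.n → Fin q.n)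
      (f' : Fin q.n → ℕ), R q ρ ∧ Ext r q p ρ ∧ Rl r q s f' ∧ f' ∘ ρ = f := by
  obtain ⟨q, ρ, f', h1, h2, h3, h4⟩ := h p f hf
  exact ⟨q, ρ, f', h1 rfl, h2, h3, h4⟩

open Classical in
/-- the family of tasks of a forcing fact -/
noncomputable def fam (r : T → T → Prop) (p : Cond T α) {ι : Type} (u : ι → Fin p.n)
    (Ψ : Pred ι) : ℕ → Task T α :=
  if h : Force r p u Ψ then Classical.choose h else fun _ => triv

theorem fam_dense (r : T → T → Prop) (p : Cond T α) {ι : Type} (u : ι → Fin p.n)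
    (Ψ : Pred ι) (i : ℕ) : (fam r p u Ψ i).Dense r := by
  unfold fam
  split_ifs with h
  · exact (Classical.choose_spec h).1 i
  · exact triv_dense r

theorem fam_spec {r : T → T → Prop} {p : Cond T α} {ι : Type} {u : ι → Fin p.n}
    {Ψ : Pred ι} (h : Force r p u Ψ) {s : ℕ → ℕ → Prop} {W : ℕ → Task T α} (hs : Good r s W)
    (hm : ∀ i, Meets r s (fam r p u Ψ i)) {f : Fin p.n → ℕ} (hf : Rl r p s f) : Ψ s (f ∘ u) := by
  have h1 : Good r s (Classical.choose h) := by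
    refine ⟨hs.base, hs.cov, fun i => ?_⟩
    have := hm i
    unfold fam at this
    rwa [dif_pos h] at this
  exact (Classical.choose_spec h).2 s h1 f hf

theorem force_of {r : T → T → Prop} {I : Type*} [Countable I] (W : I → Task T α)
    (hW : ∀ i, (W i).Dense r) (p : Cond T α) {ι : Type} (u : ι → Fin p.n) (Ψ : Pred ι)
    (h : ∀ (s : ℕ → ℕ → Prop) (W' : ℕ → Task T α), Good r s W' → (∀ i, Meets r s (W i)) →
      ∀ f, Rl r p s f → Ψ s (f ∘ u)) : Force r p u Ψ := by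
  obtain ⟨e, he⟩ := exists_surjective_nat (Option I)
  refine ⟨fun n => (e n).elim triv W, fun n => ?_, fun s hs f hf => h s _ hs (fun i => ?_) f hf⟩
  · show Task.Dense r ((e n).elim triv W)
    cases e n with
    | none => exact triv_dense r
    | some i => exact hW i
  · obtain ⟨n, hn⟩ := he (some i)
    have := hs.meets n
    rw [hn] at this
    exact this

theorem Force.mono {r : T → T → Prop} {q p : Cond T α} {ρ : Fin p.n → Fin q.n}
    (hq : Ext r q p ρ) {ι : Type} {u : ι → Fin p.n} {Ψ : Pred ι} (h : Force r p u Ψ) :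
    Force r q (ρ ∘ u) Ψ := by
  obtain ⟨W, hW, h⟩ := h
  exact ⟨W, hW, fun s hs f hf => h s hs (f ∘ ρ) (Rl.of_ext hq hf)⟩

theorem Force.imp {r : T → T → Prop} {p : Cond T α} {ι κ : Type} {u : ι → Fin p.n} {Ψ : Pred ι}
    {v : κ → Fin p.n} {Φ : Pred κ} (h : Force r p u Ψ)
    (hi : ∀ s (f : Fin p.n → ℕ), Rl r p s f → Ψ s (f ∘ u) → Φ s (f ∘ v)) : Force r p v Φ := by
  obtain ⟨W, hW, h⟩ := h
  exact ⟨W, hW, fun s hs f hf => hi s f hf (h s hs f hf)⟩

theorem force_now {r : T → T → Prop} {p : Cond T α} {ι : Type} {u : ι → Fin p.n} {Ψ : Pred ι}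
    (h : ∀ s (f : Fin p.n → ℕ), Rl r p s f → Ψ s (f ∘ u)) : Force r p u Ψ :=
  ⟨fun _ => triv, fun _ => triv_dense r, fun s _ f hf => h s f hf⟩

/-- a fact is decided below every condition -/
theorem decide_dense {r : T → T → Prop} {ι : Type} {Ψ : Pred ι} (h : Dec α r Ψ)
    (p : Cond T α) (u : ι → Fin p.n) :
    (TaskAt p (fun q ρ => Force r q (ρ ∘ u) Ψ ∨ Force r q (ρ ∘ u) (fun s f => ¬ Ψ s f))).Dense r :=
  by
  refine taskAt_dense r p _ fun t σ _ => ?_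
  obtain ⟨q, ρ, hq, h⟩ := h t (σ ∘ u)
  exact ⟨q, ρ, hq, h⟩

theorem dec_all [Countable T] (hα : (Set.Iio α).Countable) (r : T → T → Prop) {ι : Type}
    (J : Type 1) [Countable J] (Ψ : J → Pred ι) (hΨ : ∀ j, Dec α r (Ψ j)) :
    Dec α r (fun s f => ∀ j, Ψ j s f) := by
  classical
  have : Countable (Cond T α) := countable_cond T α hα
  intro p u
  by_cases hA : ∃ (q : Cond T α) (ρ : Fin p.n → Fin q.n) (j : J), Ext r q p ρ ∧
      Force r q (ρ ∘ u) (fun s f => ¬ Ψ j s f)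
  · obtain ⟨q, ρ, j, hq, h⟩ := hA
    exact ⟨q, ρ, hq, Or.inr (h.imp fun s f _ h1 h2 => h1 (h2 j))⟩
  · push Not at hA
    refine ⟨p, id, Ext.refl _ _, Or.inl ?_⟩
    let Wj : J → Task T α := fun j => TaskAt p (fun q ρ => Ext r q p ρ → Force r q (ρ ∘ u) (Ψ j))
    have hWj : ∀ j, (Wj j).Dense r := by
      intro j
      refine taskAt_dense r p _ fun t σ ht => ?_
      obtain ⟨q, ρ, hq, h⟩ := hΨ j t (σ ∘ u)
      refine ⟨q, ρ, hq, fun _ => ?_⟩
      rcases h with h | h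
      · exact h
      · exact (hA q (ρ ∘ σ) j (hq.trans ht) h).elim
    let W : J ⊕ (J × (Σ q : Cond T α, (Fin p.n → Fin q.n)) × ℕ) → Task T α :=
      Sum.elim Wj (fun x => fam r x.2.1.1 (x.2.1.2 ∘ u) (Ψ x.1) x.2.2)
    refine force_of W ?_ p _ _ ?_
    · rintro (j | x)
      · exact hWj j
      · exact fam_dense _ _ _ _ _
    · intro s W' hs hm f hf j
      obtain ⟨q, ρ, f', hR, hq, hf', hρ⟩ := taskAt_meets
        (R := fun q ρ => Ext r q p ρ → Force r q (ρ ∘ u) (Ψ j)) (hm (Sum.inl j)) hf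
      have := fam_spec (hR hq) hs (fun i => hm (Sum.inr (j, ⟨q, ρ⟩, i))) hf'
      rw [← Function.comp_assoc, hρ] at this
      exact this

theorem dec_ex [Countable T] (hα : (Set.Iio α).Countable) (r : T → T → Prop) {ι : Type}
    (k : ℕ) (χ : Pred (ι ⊕ Fin k)) (hχ : Dec α r χ) :
    Dec α r (fun s (f : ι → ℕ) => ∃ z : Fin k → ℕ, χ s (Sum.elim f z)) := by
  classical
  have : Countable (Cond T α) := countable_cond T α hα
  intro p u
  by_cases hA : ∃ (q : Cond T α) (ρ : Fin p.n → Fin q.n) (y : Fin k → Fin q.n), Ext r q p ρ ∧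
      Force r q (Sum.elim (ρ ∘ u) y) χ
  · obtain ⟨q, ρ, y, hq, h⟩ := hA
    refine ⟨q, ρ, hq, Or.inl (h.imp fun s f _ h1 => ⟨f ∘ y, ?_⟩)⟩
    rw [Sum.comp_elim] at h1
    exact h1
  · push Not at hA
    refine ⟨p, id, Ext.refl _ _, Or.inr ?_⟩
    let I := Σ q : Cond T α, (Fin p.n → Fin q.n) × (Fin k → Fin q.n)
    let W : I ⊕ (I × ℕ) → Task T α := Sum.elim
      (fun x => TaskAt x.1 (fun q τ => Force r q (τ ∘ Sum.elim (x.2.1 ∘ u) x.2.2) χ ∨
        Force r q (τ ∘ Sum.elim (x.2.1 ∘ u) x.2.2) (fun s f => ¬ χ s f)))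
      (fun x => fam r x.1.1 (Sum.elim (x.1.2.1 ∘ u) x.1.2.2) (fun s f => ¬ χ s f) x.2)
    refine force_of W ?_ p _ _ ?_
    · rintro (x | x)
      · exact decide_dense hχ _ _
      · exact fam_dense _ _ _ _ _
    · rintro s W' hs hm f hf ⟨z, hz⟩
      obtain ⟨q, ρ, κ, f', hq, -, hf', hρ, hκ⟩ := hs.cov p f hf k z p.β p.lt
      obtain ⟨q', τ, f'', hR, hq', hf'', hτ⟩ := taskAt_meets
        (R := fun q' τ => Force r q' (τ ∘ Sum.elim (ρ ∘ u) κ) χ ∨
          Force r q' (τ ∘ Sum.elim (ρ ∘ u) κ) (fun s f => ¬ χ s f)) (hm (Sum.inl ⟨q, ρ, κ⟩)) hf'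
      have e1 : τ ∘ Sum.elim (ρ ∘ u) κ = Sum.elim ((τ ∘ ρ) ∘ u) (τ ∘ κ) := by
        rw [Sum.comp_elim]; rfl
      rw [e1] at hR
      rcases hR with hR | hR
      · exact hA q' (τ ∘ ρ) (τ ∘ κ) (hq'.trans hq) hR
      · have := fam_spec hR hs (fun i => hm (Sum.inr (⟨q', τ ∘ ρ, τ ∘ κ⟩, i))) hf''
        apply this
        have e2 : f'' ∘ Sum.elim ((τ ∘ ρ) ∘ u) (τ ∘ κ) = Sum.elim ((f ∘ id) ∘ u) z := by
          rw [Sum.comp_elim, ← hρ, ← hκ, ← hτ]
          rfl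
        rw [e2]
        exact hz

theorem dec : DEC_stmt := by
  intro T hT α hα r
  refine ⟨?_, ?_, ?_, ?_, ?_, ?_⟩
  · intro ι i j p u
    refine ⟨p, id, Ext.refl _ _, ?_⟩
    by_cases h : r (p.e (u i)) (p.e (u j))
    · exact Or.inl (force_now fun s f hf => (hf.sameQf.1 _ _).1 h)
    · exact Or.inr (force_now fun s f hf h' => h ((hf.sameQf.1 _ _).2 h'))
  · intro ι i j p u
    refine ⟨p, id, Ext.refl _ _, ?_⟩
    by_cases h : p.e (u i) = p.e (u j)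
    · exact Or.inl (force_now fun s f hf => (hf.sameQf.2 _ _).1 h)
    · exact Or.inr (force_now fun s f hf h' => h ((hf.sameQf.2 _ _).2 h'))
  · intro ι κ Ψ v h p u
    obtain ⟨q, ρ, hq, h⟩ := h p (u ∘ v)
    refine ⟨q, ρ, hq, h.imp (fun h => h.imp fun s f _ h => h) (fun h => h.imp fun s f _ h => h)⟩
  · intro ι Ψ h p u
    obtain ⟨q, ρ, hq, h⟩ := h p u
    exact ⟨q, ρ, hq, h.symm.imp id (fun h => h.imp fun s f _ h1 h2 => h2 h1)⟩
  · intro ι J _ Ψ h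
    exact dec_all hα r J Ψ h
  · intro ι k χ h
    exact dec_ex hα r k χ h

theorem main : MAIN_stmt := by
  classical
  intro hEX T hT hTi α hα hαc r J hJ ι hι Ψ hΨ W0 hW0
  have : Countable (Cond T α) := countable_cond T α hαc
  let I := Σ j : J, Σ q : Cond T α, (ι j → Fin q.n)
  let W : ℕ ⊕ I ⊕ (I × ℕ) ⊕ (I × ℕ) → Task T α := Sum.elim W0 (Sum.elim
    (fun x => TaskAt x.2.1 (fun q ρ => Force r q (ρ ∘ x.2.2) (Ψ x.1) ∨
      Force r q (ρ ∘ x.2.2) (fun s f => ¬ Ψ x.1 s f)))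
    (Sum.elim (fun x => fam r x.1.2.1 x.1.2.2 (Ψ x.1.1) x.2)
      (fun x => fam r x.1.2.1 x.1.2.2 (fun s f => ¬ Ψ x.1.1 s f) x.2)))
  obtain ⟨e, he⟩ := exists_surjective_nat (ℕ ⊕ I ⊕ (I × ℕ) ⊕ (I × ℕ))
  have hW : ∀ x, (W x).Dense r := by
    rintro (x | x | x | x)
    · exact hW0 x
    · exact decide_dense (hΨ x.1) _ _
    · exact fam_dense _ _ _ _ _
    · exact fam_dense _ _ _ _ _
  obtain ⟨s, hs⟩ := hEX T α hα hαc r (fun n => W (e n)) (fun n => hW _)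
  have hm : ∀ x, Meets r s (W x) := by
    intro x
    obtain ⟨n, rfl⟩ := he x
    exact hs.meets n
  refine ⟨s, ⟨hs.base, hs.cov, fun i => hm (Sum.inl i)⟩, fun j => ⟨?_, ?_⟩⟩
  · intro p u h g hg
    exact fam_spec h hs (fun i => hm (Sum.inr (Sum.inr (Sum.inl (⟨j, p, u⟩, i))))) hg
  · intro f hf
    obtain ⟨m, ⟨eι⟩⟩ := Finite.exists_equiv_fin (ι j)
    have h1α : (1 : Ordinal.{0}) < α := lt_of_lt_of_le (by exact_mod_cast one_lt_two) hα
    let p0 : Cond T α := ⟨0, Fin.elim0, 1, le_rfl, h1α⟩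
    have hp0 : Rl r p0 s Fin.elim0 := hs.base 1 le_rfl h1α
    obtain ⟨q, ρ, κ, f', hq, -, hf', hρ, hκ⟩ := hs.cov p0 Fin.elim0 hp0 m (f ∘ eι.symm) 1 h1α
    have hu : f' ∘ (κ ∘ eι) = f := by
      rw [← Function.comp_assoc, hκ, Function.comp_assoc, Equiv.symm_comp_self, Function.comp_id]
    obtain ⟨q', τ, f'', hR, hq', hf'', hτ⟩ := taskAt_meets
      (R := fun q' τ => Force r q' (τ ∘ (κ ∘ eι)) (Ψ j) ∨
        Force r q' (τ ∘ (κ ∘ eι)) (fun s f => ¬ Ψ j s f)) (hm (Sum.inr (Sum.inl ⟨j, q, κ ∘ eι⟩))) hf'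
    have e1 : f'' ∘ (τ ∘ (κ ∘ eι)) = f := by
      rw [← Function.comp_assoc, hτ, hu]
    rcases hR with hR | hR
    · exact ⟨q', _, f'', hR, hf'', e1⟩
    · exfalso
      have := fam_spec hR hs
        (fun i => hm (Sum.inr (Sum.inr (Sum.inr (⟨j, q', τ ∘ (κ ∘ eι)⟩, i))))) hf''
      rw [e1] at this
      exact this hf

end Pool.Agent.W889.SR
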