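import Mathlib
import Pool.Agent.W889.SR.Stm

/-!
# First-order formulas in cones: countability, renaming, projection (project SR)
-/

set_option autoImplicit false

namespace Pool.Agent.W889.SR

open Set Ordinal

theorem q_count (S : Type 1) [Countable S] : Countable (Q S) := by
  let L : ℕ → Set (Q S) := fun n => Nat.rec (Set.range Q.base) (fun _ X =>
    X ∪ Q.neg '' X ∪ Set.image2 Q.and X X ∪ ⋃ i, Q.ex i '' X) n
  have hLs : ∀ n, L (n + 1) =
      L n ∪ Q.neg '' L n ∪ Set.image2 Q.and (L n) (L n) ∪ ⋃ i, Q.ex i '' L n := fun n => rfl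
  have hL : ∀ n, (L n).Countable := by
    intro n
    induction n with
    | zero => exact Set.countable_range _
    | succ n ih =>
      rw [hLs]
      exact ((ih.union (ih.image _)).union (ih.image2 ih _)).union
        (Set.countable_iUnion fun i => ih.image _)
  have hm : Monotone L := by
    refine monotone_nat_of_le_succ (fun n q hq => ?_)
    rw [hLs]
    exact Or.inl (Or.inl (Or.inl hq))
  have hex : ∀ q, ∃ n, q ∈ L n := by
    intro q
    induction q with
    | base b => exact ⟨0, b, rfl⟩
    | neg q ih =>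
      obtain ⟨n, hn⟩ := ih
      refine ⟨n + 1, ?_⟩
      rw [hLs]
      exact Or.inl (Or.inl (Or.inr ⟨q, hn, rfl⟩))
    | and q q' ih ih' =>
      obtain ⟨n, hn⟩ := ih
      obtain ⟨n', hn'⟩ := ih'
      refine ⟨max n n' + 1, ?_⟩
      rw [hLs]
      exact Or.inl (Or.inr ⟨q, hm (le_max_left _ _) hn, q', hm (le_max_right _ _) hn', rfl⟩)
    | ex i q ih =>
      obtain ⟨n, hn⟩ := ih
      refine ⟨n + 1, ?_⟩
      rw [hLs]
      exact Or.inr (Set.mem_iUnion.2 ⟨i, q, hn, rfl⟩)
  exact Set.countable_univ_iff.1 ((Set.countable_iUnion hL).mono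
    (fun q _ => Set.mem_iUnion.2 (hex q)))

theorem q_ren {S : Type 1} {B : Itp S} (hB : BLaws B) (q : Q S) :
    ∀ π : ℕ → ℕ, Function.Injective π →
      ∃ q' : Q S, ∀ s v ρ, q'.sat B s v ρ ↔ q.sat B s v (ρ ∘ π) := by
  induction q with
  | base b =>
    intro π _
    obtain ⟨b', hb⟩ := hB.ren b π
    exact ⟨.base b', fun s v ρ => hb s v ρ⟩
  | neg q ih =>
    intro π hπ
    obtain ⟨q', h⟩ := ih π hπ
    exact ⟨.neg q', fun s v ρ => not_congr (h s v ρ)⟩
  | and q1 q2 ih1 ih2 =>
    intro π hπ
    obtain ⟨q1', h1⟩ := ih1 π hπ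
    obtain ⟨q2', h2⟩ := ih2 π hπ
    exact ⟨.and q1' q2', fun s v ρ => and_congr (h1 s v ρ) (h2 s v ρ)⟩
  | ex i q ih =>
    intro π hπ
    obtain ⟨q', h⟩ := ih π hπ
    refine ⟨.ex (π i) q', fun s v ρ => exists_congr fun w => and_congr Iff.rfl ?_⟩
    rw [h]
    have e : Function.update ρ (π i) w ∘ π = Function.update (ρ ∘ π) i w := by
      funext j
      by_cases hj : j = i
      · subst hj; simp
      · rw [Function.update_of_ne hj, Function.comp_apply, Function.update_of_ne
          (fun h => hj (hπ h))]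
        rfl
    rw [e]

/-- block of existential quantifiers over the variables `k, …, k + m - 1` -/
def exs {S : Type 1} (k : ℕ) : ℕ → Q S → Q S
  | 0, q => q
  | m + 1, q => exs k m (.ex (k + m) q)

open Classical in
/-- new assignment -/
noncomputable def nasg (k m : ℕ) (z' : Fin m → ℕ) (ρ : ℕ → ℕ) : ℕ → ℕ :=
  fun i => if h : k ≤ i ∧ i < k + m then z' ⟨i - k, by omega⟩ else ρ i

theorem exs_sat {S : Type 1} (B : Itp S) (s : ℕ → ℕ → Prop) (v : ℕ) (k : ℕ) :
    ∀ (m : ℕ) (q : Q S) (ρ : ℕ → ℕ), (exs k m q).sat B s v ρ ↔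
      ∃ z' : Fin m → ℕ, (∀ i, s v (z' i)) ∧ q.sat B s v (nasg k m z' ρ) := by
  intro m
  induction m with
  | zero =>
    intro q ρ
    have e : ∀ z' : Fin 0 → ℕ, nasg k 0 z' ρ = ρ := by
      intro z'
      funext i
      unfold nasg
      rw [dif_neg (by omega)]
    constructor
    · intro h
      exact ⟨Fin.elim0, fun i => i.elim0, by rw [e]; exact h⟩
    · rintro ⟨z', -, h⟩
      rw [e] at h
      exact h
  | succ m ih =>
    intro q ρ
    have e : ∀ (z' : Fin m → ℕ) (w : ℕ), nasg k (m + 1) (Fin.snoc z' w : Fin (m + 1) → ℕ) ρ =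
        Function.update (nasg k m z' ρ) (k + m) w := by
      intro z' w
      funext i
      by_cases hi : i = k + m
      · subst hi
        rw [Function.update_self]
        unfold nasg
        rw [dif_pos (by omega)]
        have : (⟨k + m - k, by omega⟩ : Fin (m + 1)) = Fin.last m := Fin.ext (by simp)
        rw [this, Fin.snoc_last]
      · rw [Function.update_of_ne hi]
        unfold nasg
        by_cases h : k ≤ i ∧ i < k + m
        · rw [dif_pos h, dif_pos (by omega)]
          have : (⟨i - k, by omega⟩ : Fin (m + 1)) = (⟨i - k, by omega⟩ : Fin m).castSucc :=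
            Fin.ext (by simp)
          rw [this, Fin.snoc_castSucc]
        · rw [dif_neg h, dif_neg (by omega)]
    show (exs k m (.ex (k + m) q)).sat B s v ρ ↔ _
    rw [ih]
    constructor
    · rintro ⟨z', hz', w, hw, h⟩
      refine ⟨Fin.snoc z' w, fun i => ?_, by rw [e]; exact h⟩
      refine Fin.lastCases ?_ (fun i => ?_) i
      · rw [Fin.snoc_last]; exact hw
      · rw [Fin.snoc_castSucc]; exact hz' i
    · rintro ⟨z', hz', h⟩
      refine ⟨fun i => z' i.castSucc, fun i => hz' _, z' (Fin.last m), hz' _, ?_⟩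
      rw [← e]
      have : (Fin.snoc (fun i : Fin m => z' i.castSucc) (z' (Fin.last m)) : Fin (m + 1) → ℕ) =
          z' := by
        funext i
        refine Fin.lastCases ?_ (fun i => ?_) i
        · rw [Fin.snoc_last]
        · rw [Fin.snoc_castSucc]
      rw [this]
      exact h

theorem foldr_sat {S : Type 1} (B : Itp S) (s : ℕ → ℕ → Prop) (v : ℕ) (q : Q S) (l : List (Q S))
    (ρ : ℕ → ℕ) : (l.foldr Q.and q).sat B s v ρ ↔ (∀ x ∈ l, x.sat B s v ρ) ∧ q.sat B s v ρ := by
  induction l with
  | nil => simp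
  | cons a l ih =>
    show (a.sat B s v ρ ∧ (l.foldr Q.and q).sat B s v ρ) ↔ _
    rw [ih, List.forall_mem_cons, and_assoc]

theorem qa : QA where
  count := fun S _ => q_count S
  ren := fun S B hB q π hπ => q_ren hB q π hπ
  proj := by
    intro S B hB k n u q
    obtain ⟨q1, h1⟩ := q_ren hB q (fun i => k + i) (fun i j h => Nat.add_left_cancel h)
    choose b hb using hB.eq
    let q2 : Q S := ((List.finRange k).map (fun j => Q.base (b (k + u j) j))).foldr Q.and q1
    have h2 : ∀ s v ρ, q2.sat B s v ρ ↔ (∀ j : Fin k, ρ (k + u j) = ρ j) ∧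
        q.sat B s v (ρ ∘ fun i => k + i) := by
      intro s v ρ
      show (((List.finRange k).map (fun j => Q.base (b (k + u j) j))).foldr Q.and q1).sat B s v ρ
        ↔ _
      rw [foldr_sat, h1]
      refine and_congr ?_ Iff.rfl
      constructor
      · intro h j
        exact (hb _ _ s v ρ).1 (h (Q.base (b (k + u j) j))
          (List.mem_map.2 ⟨j, List.mem_finRange j, rfl⟩))
      · intro h x hx
        obtain ⟨j, -, rfl⟩ := List.mem_map.1 hx
        exact (hb _ _ s v ρ).2 (h j)
    refine ⟨exs k n q2, fun s v hv z hz => ?_⟩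
    rw [exs_sat]
    refine exists_congr fun z' => and_congr_right fun hz' => ?_
    rw [h2]
    have e1 : (nasg k n z' (ext v z) ∘ fun i => k + i) = ext v z' := by
      funext i
      show nasg k n z' (ext v z) (k + i) = _
      unfold nasg ext
      by_cases hi : i < n
      · rw [dif_pos (by omega), dif_pos hi]
        congr 1
        exact Fin.ext (by simp)
      · rw [dif_neg (by omega), dif_neg (by omega), dif_neg hi]
    have e2 : ∀ j : Fin k, nasg k n z' (ext v z) (k + u j) = z' (u j) := by
      intro j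
      have := (u j).2
      unfold nasg
      rw [dif_pos (by omega)]
      congr 1
      exact Fin.ext (by simp)
    have e3 : ∀ j : Fin k, nasg k n z' (ext v z) j = z j := by
      intro j
      have := j.2
      unfold nasg ext
      rw [dif_neg (by omega), dif_pos j.2]
    rw [e1]
    constructor
    · rintro ⟨h, h'⟩
      refine ⟨h', funext fun j => ?_⟩
      have := h j
      rw [e2, e3] at this
      exact this
    · rintro ⟨h, h'⟩
      refine ⟨fun j => ?_, h⟩
      rw [e2, e3]
      exact congrFun h' j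

end Pool.Agent.W889.SR
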