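import Mathlib
import Pool.Agent.W889.SR.Stm
import Pool.Agent.W889.SR.Dec
import Pool.Agent.W889.SR.QAp

/-!
# Assembly (project SR)
-/

set_option autoImplicit false

namespace Pool.Agent.W889.SR

open Set Ordinal

theorem countable_sb (T : Type) [Countable T] (α : Ordinal.{0}) (hα : (Set.Iio α).Countable) :
    Countable (SB T α) := by
  have : Countable (Set.Iio α) := hα.to_subtype
  let g : (ℕ × ℕ) ⊕ (ℕ × ℕ) ⊕ (Σ n : ℕ, T × (Fin n → T) × Set.Iio α × (Fin n → ℕ)) → SB T α :=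
    Sum.elim (fun x => .le x.1 x.2) (Sum.elim (fun x => .eq x.1 x.2)
      (fun x => .cb x.1 x.2.1 x.2.2.1 x.2.2.2.1 x.2.2.2.2))
  have hg : Function.Surjective g := by
    rintro (⟨i, j⟩ | ⟨i, j⟩ | ⟨n, e, a, β, u⟩)
    · exact ⟨Sum.inl (i, j), rfl⟩
    · exact ⟨Sum.inr (Sum.inl (i, j)), rfl⟩
    · exact ⟨Sum.inr (Sum.inr ⟨n, e, a, β, u⟩), rfl⟩
  exact hg.countable

theorem IsTree.isForest {A : Type} {r : A → A → Prop} (h : IsTree r) : IsForest r :=
  ⟨h.refl, h.antisymm, h.trans, h.chain⟩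

/-- index of the predicates to be decided -/
abbrev JJ (T : Type) (α : Ordinal.{0}) : Type 1 :=
  (ℕ × Q (SB T α)) ⊕ (ULift.{1} ℕ ⊕ ULift.{1} ℕ)

def JI {T : Type} {α : Ordinal.{0}} : JJ T α → Type
  | .inl x => Fin (x.1 + 1)
  | .inr (.inl k) => Bool ⊕ (Fin k.down ⊕ Fin k.down)
  | .inr (.inr k) => Bool ⊕ Fin k.down

def JP {T : Type} {α : Ordinal.{0}} (r : T → T → Prop) : (j : JJ T α) → Pred (JI j)
  | .inl x => PQ (α := α) r x.1 x.2
  | .inr (.inl k) => PTE α r k.down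
  | .inr (.inr k) => PNM α r k.down

theorem ji_finite {T : Type} {α : Ordinal.{0}} (j : JJ T α) : Finite (JI j) := by
  rcases j with x | k | k
  · show Finite (Fin (x.1 + 1))
    infer_instance
  · show Finite (Bool ⊕ (Fin k.down ⊕ Fin k.down))
    infer_instance
  · show Finite (Bool ⊕ Fin k.down)
    infer_instance

theorem finish_finite (hFM : FM) (hK3 : K3_stmt) (hFIN : FIN_stmt) {M : Type} [Finite M]
    [Nonempty M] (s : M → M → Prop) (α : Ordinal.{0}) :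
    ∃ ψ : Fml 0, ψ.IsPi (α + 1 + 1) ∧ IsScott s ψ := by
  have : Countable M := Finite.to_countable
  obtain ⟨ψ, h1, h2⟩ := hK3 hFM M s 1 le_rfl (fun n a => hFIN hFM M s n a)
  refine ⟨ψ, hFM.mono 0 ψ false _ _ ?_ h1, h2⟩
  gcongr
  exact le_add_self

theorem unit_sat (hK1 : K1) {T : Type} {r : T → T → Prop} (hr : IsTree r) (φ : Fml 0)
    (hφ : φ.IsPi 1) (h : Sat r φ) : Sat (fun _ _ : Unit => True) φ := by
  obtain ⟨o, ho⟩ := hr.root
  refine (hK1 1 0 φ T Unit r Fin.elim0 (fun _ _ => True) Fin.elim0 ?_).1 hφ h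
  rw [BF_iff]
  refine ⟨⟨fun i => i.elim0, fun i => i.elim0⟩, fun γ hγ k d _ =>
    ⟨fun _ => o, fun _ => mem_univ _, ?_⟩⟩
  have hγ0 : γ = 0 := Order.lt_one_iff.1 hγ
  subst hγ0
  rw [BF_iff]
  refine ⟨⟨?_, ?_⟩, fun γ hγ => absurd hγ not_lt_zero⟩
  · rintro (i | i) (j | j)
    · exact i.elim0
    · exact i.elim0
    · exact j.elim0
    · exact ⟨fun _ => ho o, fun _ => trivial⟩
  · rintro (i | i) (j | j)
    · exact i.elim0
    · exact i.elim0
    · exact j.elim0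
    · exact ⟨fun _ => rfl, fun _ => rfl⟩

theorem unit_tree : IsTree (fun _ _ : Unit => True) :=
  ⟨fun _ => trivial, fun _ _ _ _ => rfl, fun _ _ _ _ _ => trivial, ⟨(), fun _ => trivial⟩,
    fun _ => Set.toFinite _, fun _ _ _ _ _ => Or.inl trivial⟩

theorem iio_countable (α : Ordinal.{0}) (h : α.card ≤ Cardinal.aleph0) :
    (Set.Iio α).Countable := by
  rw [← Cardinal.le_aleph0_iff_set_countable, Cardinal.mk_Iio_ordinal]
  exact Cardinal.lift_le_aleph0.2 h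

theorem assemble (hFM : FM) (hK12 : K12_stmt) (hK3 : K3_stmt) (hFIN : FIN_stmt)
    (hCBD : CBD_stmt) (hFV : FV_stmt) (hTREE : TREE_stmt) (hQB : QB_stmt) (hL : L1NM_stmt)
    (hDEF : DEF_stmt) (hSW : SW) (hINV : INV) (hORB : ORB_stmt) (α : Ordinal.{0}) (h1 : 1 ≤ α)
    (hc : α.card ≤ Cardinal.aleph0) (φ : Fml 0) (hφ : φ.IsPi α)
    (hT : ∃ (T : Type) (_ : Countable T) (r : T → T → Prop), IsTree r ∧ Sat r φ) :
    ∃ (M : Type) (_ : Countable M) (s : M → M → Prop), IsTree s ∧ Sat s φ ∧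
      ∃ ψ : Fml 0, ψ.IsPi (α + 1 + 1) ∧ IsScott s ψ := by
  classical
  obtain ⟨T, hTc, r, hr, hsat⟩ := hT
  obtain ⟨hK1, hK2, hRD⟩ := hK12 hFM
  rcases finite_or_infinite T with hfin | hinf
  · have : Nonempty T := ⟨hr.root.choose⟩
    exact ⟨T, hTc, r, hr, hsat, finish_finite hFM hK3 hFIN r α⟩
  rcases eq_or_lt_of_le h1 with rfl | h1
  · exact ⟨Unit, inferInstance, fun _ _ => True, unit_tree, unit_sat hK1 hr φ hφ hsat,
      finish_finite hFM hK3 hFIN _ _⟩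
  have h2 : 2 ≤ α := by
    have := Order.succ_le_of_lt h1
    rwa [Order.succ_eq_add_one, one_add_one_eq_two] at this
  have hα := iio_countable α hc
  have hQ : QLaws := hQB qa
  have : Countable (SB T α) := countable_sb T α hα
  have : Countable (Q (SB T α)) := qa.count _ inferInstance
  obtain ⟨hPQ, hPTE, hPNM⟩ := hCBD T α hα qa.count r (dec T α hα r)
  obtain ⟨W0, hW0, hgood⟩ := hTREE hK1 T α h2 hα r hr φ hφ hsat
  have : ∀ j : JJ T α, Finite (JI j) := ji_finite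
  obtain ⟨s, hs, htr⟩ := main ex T α h2 hα r (JJ T α) JI (JP r)
    (by
      rintro (x | k | k)
      · exact hPQ x.1 x.2
      · exact hPTE k.down
      · exact hPNM k.down) W0 hW0
  obtain ⟨hst, hsφ⟩ := hgood s hs
  obtain ⟨hL1, hNM⟩ := hL hFV.1 hFV.2 hQ T α r s hr.isForest hst.isForest
    (fun k => htr (.inr (.inl ⟨k⟩))) (fun k => htr (.inr (.inr ⟨k⟩)))
  have hTD : TD α r s := hDEF hFM hRD qa.count T α h2 hα r s (fun k q => htr (.inl (k, q)))
  have horb := hORB hFM hSW hQ hINV T α h2 r s hst hL1 hNM hTD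
  exact ⟨ℕ, inferInstance, s, hst, hsφ, hK3 hFM ℕ s (α + 1) le_add_self horb⟩

end Pool.Agent.W889.SR
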