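import Mathlib
import Pool.Agent.W889.SR.Stm2
import Pool.Agent.W889.SR.Asm

/-!
# Assembly of the lower bound at limit levels (project SR2)
-/

set_option autoImplicit false

namespace Pool.Agent.W889.SR

open Set Ordinal

theorem lim_two {l : Ordinal.{0}} (hl : Lim l) {γ : Ordinal.{0}} (hγ : γ < l) : γ + 2 < l := by
  have h := hl.2 _ (hl.2 γ hγ)
  rwa [add_assoc, one_add_one_eq_two] at h

theorem lower (hC : CELaws) (hFR : FR_stmt) (hFAT : FAT_stmt) (hFE : FATEX_stmt)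
    (hSEQ : SEQ_stmt) (hSUM : SUM_stmt) (hM0 : M0_stmt) (hFORM : FORM_stmt) (hTR : TRANS_stmt)
    (hLOW : LOW_stmt) (hFM : FM) (hK1 : K1) (l : Ordinal.{0}) (hl : Lim l)
    (hc : (Set.Iio l).Countable) : ∃ φ : Fml 0, φ.IsPi l ∧
      (∃ (T : Type) (_ : Countable T) (r : T → T → Prop), IsTree r ∧ Sat r φ) ∧
      ∀ (B : Type) [Countable B] (t : B → B → Prop), IsTree t → Sat t φ →
        ¬ ∃ ψ : Fml 0, ψ.IsPi (l + 1) ∧ IsScott t ψ := by
  obtain ⟨X, hX, r, h, g, d, hr, hs⟩ := hSEQ hC hFAT hFE l hl hc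
  obtain ⟨M, hM, s, o, hst, ho, hch, hrich⟩ := hM0 hC hFR hSUM l hl X r h g d hr hs
  have : Nonempty M := ⟨o⟩
  obtain ⟨φ, hφ, hsat⟩ := hFORM hFM l hl hc M s
  refine ⟨φ, hφ, ⟨M, hM, s, hst, (hsat M s).2 (fun γ _ => ⟨BF.refl _ _ _ _, BF.refl _ _ _ _⟩)⟩,
    fun B _ t ht hB => ?_⟩
  obtain ⟨o', ho'⟩ := ht.root
  have hCL : CL l s o t o' := fun γ hγ => by
    have h2 := (hsat B t).1 hB (γ + 2) (lim_two hl hγ)
    exact hC.root γ M B s t hst ht o o' ho ho' h2.1 h2.2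
  obtain ⟨h1, h2⟩ := hTR hC l hl M B s t o o' hst ht hCL hch hrich
  exact hLOW hC hFR hK1 l hl B t o' ht ho' h1 h2

end Pool.Agent.W889.SR
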