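import Mathlib
import Pool.Agent.W889.SR.Stm2
import Pool.Agent.W917.SR.K3

/-!
# Every countable structure has a Scott sentence
-/

set_option autoImplicit false

namespace Pool.Agent.W889.SR.ScottEx

open Set Ordinal Pool.Agent.W889.SR

open Pool.Agent.W917.SR (append_update fml_iso)

/-- back-and-forth for countable structures, with a starting tuple -/
theorem back_forth' {M B : Type} [Countable M] [Nonempty M] [Countable B] [Nonempty B]
    (s : M → M → Prop) (t : B → B → Prop)
    (P : (n : ℕ) → (Fin n → M) → (Fin n → B) → Prop) (k : ℕ) (a₀ : Fin k → M) (b₀ : Fin k → B)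
    (h0 : P k a₀ b₀)
    (hs : ∀ n a x, P n a x → SameQf s a t x)
    (hf : ∀ n a x, P n a x → ∀ b, ∃ y, P (n + 1) (Fin.append a (fun _ : Fin 1 => b))
      (Fin.append x (fun _ : Fin 1 => y)))
    (hb : ∀ n a x, P n a x → ∀ y, ∃ b, P (n + 1) (Fin.append a (fun _ : Fin 1 => b))
      (Fin.append x (fun _ : Fin 1 => y))) : ∃ g : s ≃r t, ∀ i, g (a₀ i) = b₀ i := by
  classical
  obtain ⟨eM, heM⟩ := exists_surjective_nat M
  obtain ⟨eB, heB⟩ := exists_surjective_nat B
  have step : ∀ (n : ℕ) (A : ℕ → M) (X : ℕ → B), ∃ p : M × B,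
      P (k + n) (fun i => A i) (fun i => X i) →
      P (k + n + 1) (fun i => Function.update A (k + n) p.1 i)
        (fun i => Function.update X (k + n) p.2 i) ∧
      (Even n → p.1 = eM (n / 2)) ∧ (¬ Even n → p.2 = eB (n / 2)) := by
    intro n A X
    by_cases hP : P (k + n) (fun i => A i) (fun i => X i)
    · by_cases he : Even n
      · obtain ⟨y, hy⟩ := hf (k + n) _ _ hP (eM (n / 2))
        rw [append_update, append_update] at hy
        exact ⟨(eM (n / 2), y), fun _ => ⟨hy, fun _ => rfl, fun h => absurd he h⟩⟩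
      · obtain ⟨b, hb'⟩ := hb (k + n) _ _ hP (eB (n / 2))
        rw [append_update, append_update] at hb'
        exact ⟨(b, eB (n / 2)), fun _ => ⟨hb', fun h => absurd h he, fun _ => rfl⟩⟩
    · exact ⟨(Classical.arbitrary M, Classical.arbitrary B), fun h => absurd h hP⟩
  choose p hp using step
  let A₀ : ℕ → M := fun i => if h : i < k then a₀ ⟨i, h⟩ else Classical.arbitrary M
  let X₀ : ℕ → B := fun i => if h : i < k then b₀ ⟨i, h⟩ else Classical.arbitrary B
  let st : ℕ → (ℕ → M) × (ℕ → B) := fun n => Nat.rec (A₀, X₀)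
    (fun n q => (Function.update q.1 (k + n) (p n q.1 q.2).1,
      Function.update q.2 (k + n) (p n q.1 q.2).2)) n
  have st1 : ∀ n, (st (n + 1)).1 = Function.update (st n).1 (k + n) (p n (st n).1 (st n).2).1 :=
    fun n => rfl
  have st2 : ∀ n, (st (n + 1)).2 = Function.update (st n).2 (k + n) (p n (st n).1 (st n).2).2 :=
    fun n => rfl
  have hP : ∀ n, P (k + n) (fun i => (st n).1 i) (fun i => (st n).2 i) := by
    intro n
    induction n with
    | zero =>
      have e1 : (fun i : Fin (k + 0) => (st 0).1 i) = a₀ := by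
        funext i
        show A₀ i = _
        simp only [A₀]
        rw [dif_pos (show (i : ℕ) < k from i.2)]
        rfl
      have e2 : (fun i : Fin (k + 0) => (st 0).2 i) = b₀ := by
        funext i
        show X₀ i = _
        simp only [X₀]
        rw [dif_pos (show (i : ℕ) < k from i.2)]
        rfl
      rw [e1, e2]; exact h0
    | succ n ih =>
      have := (hp n _ _ ih).1
      rw [← st1, ← st2] at this
      exact this
  let F : ℕ → M := fun i => (st (i + 1)).1 i
  let G : ℕ → B := fun i => (st (i + 1)).2 i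
  have hF : ∀ n i, i < k + n → ∀ m, n ≤ m → (st m).1 i = (st n).1 i := by
    intro n i hi m hm
    induction m, hm using Nat.le_induction with
    | base => rfl
    | succ m hm ih =>
      rw [st1, Function.update_of_ne (by omega)]
      exact ih
  have hG : ∀ n i, i < k + n → ∀ m, n ≤ m → (st m).2 i = (st n).2 i := by
    intro n i hi m hm
    induction m, hm using Nat.le_induction with
    | base => rfl
    | succ m hm ih =>
      rw [st2, Function.update_of_ne (by omega)]
      exact ih
  have hF' : ∀ n i, i < k + n → (st n).1 i = F i := by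
    intro n i hi
    rcases le_total n (i + 1) with h | h
    · exact (hF n i hi (i + 1) h).symm
    · exact hF (i + 1) i (by omega) n h
  have hG' : ∀ n i, i < k + n → (st n).2 i = G i := by
    intro n i hi
    rcases le_total n (i + 1) with h | h
    · exact (hG n i hi (i + 1) h).symm
    · exact hG (i + 1) i (by omega) n h
  have hFG : ∀ i j, (s (F i) (F j) ↔ t (G i) (G j)) ∧ (F i = F j ↔ G i = G j) := by
    intro i j
    have h1 := hs _ _ _ (hP (max i j + 1))
    have hi : i < k + (max i j + 1) := by omega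
    have hj : j < k + (max i j + 1) := by omega
    have h2 := h1.1 ⟨i, hi⟩ ⟨j, hj⟩
    have h3 := h1.2 ⟨i, hi⟩ ⟨j, hj⟩
    simp only [hF' _ _ hi, hF' _ _ hj, hG' _ _ hi, hG' _ _ hj] at h2 h3
    exact ⟨h2, h3⟩
  have sF : Function.Surjective F := by
    intro m
    obtain ⟨l, hl⟩ := heM m
    refine ⟨k + 2 * l, ?_⟩
    have h1 := (hp (2 * l) _ _ (hP (2 * l))).2.1 (even_two_mul l)
    have h2 : F (k + 2 * l) = (p (2 * l) (st (2 * l)).1 (st (2 * l)).2).1 := by
      rw [← hF' (2 * l + 1) (k + 2 * l) (by omega), st1, Function.update_self]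
    rw [h2, h1, ← hl]
    congr 1
    omega
  have sG : Function.Surjective G := by
    intro m
    obtain ⟨l, hl⟩ := heB m
    refine ⟨k + (2 * l + 1), ?_⟩
    have h1 := (hp (2 * l + 1) _ _ (hP (2 * l + 1))).2.2 (by
      rw [Nat.not_even_iff_odd]; exact odd_two_mul_add_one l)
    have h2 : G (k + (2 * l + 1)) = (p (2 * l + 1) (st (2 * l + 1)).1 (st (2 * l + 1)).2).2 := by
      rw [← hG' (2 * l + 1 + 1) (k + (2 * l + 1)) (by omega)]
      have h3 := congrFun (st2 (2 * l + 1)) (k + (2 * l + 1))
      rw [Function.update_self] at h3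
      exact h3
    rw [h2, h1, ← hl]
    congr 1
    omega
  choose iF hiF using sF
  let e : M → B := fun m => G (iF m)
  have he : ∀ i, e (F i) = G i := fun i => ((hFG _ _).2).1 (hiF (F i))
  have hbij : Function.Bijective e := by
    constructor
    · intro m m' hmm
      have := ((hFG (iF m) (iF m')).2).2 hmm
      rwa [hiF, hiF] at this
    · intro b
      obtain ⟨i, hi⟩ := sG b
      exact ⟨F i, by rw [he, hi]⟩
  refine ⟨⟨Equiv.ofBijective e hbij, ?_⟩, ?_⟩
  · intro m m'
    have := (hFG (iF m) (iF m')).1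
    rw [hiF, hiF] at this
    exact this.symm
  · intro i
    have e1 : F i = a₀ i := by
      rw [← hF' 0 i (by have := i.2; omega)]
      show A₀ i = _
      simp only [A₀]
      rw [dif_pos i.2]
    have e2 : G i = b₀ i := by
      rw [← hG' 0 i (by have := i.2; omega)]
      show X₀ i = _
      simp only [X₀]
      rw [dif_pos i.2]
    show e (a₀ i) = b₀ i
    rw [← e1, he, e2]

/-- there is a level from which on the back-and-forth relations are constant -/
theorem exists_bound (M : Type) [Countable M] (s : M → M → Prop) :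
    ∃ B0 : Ordinal.{0}, ∀ (n : ℕ) (a b : Fin n → M), BF B0 s univ a s univ b →
      ∀ γ, BF γ s univ a s univ b := by
  classical
  let I := Σ n : ℕ, (Fin n → M) × (Fin n → M)
  have hex : ∀ i : I, ∃ δ : Ordinal.{0}, BF δ s univ i.2.1 s univ i.2.2 →
      ∀ γ, BF γ s univ i.2.1 s univ i.2.2 := by
    intro i
    by_cases h : ∀ γ, BF γ s univ i.2.1 s univ i.2.2
    · exact ⟨0, fun _ => h⟩
    · push Not at h
      obtain ⟨δ, hδ⟩ := h
      exact ⟨δ, fun h => absurd h hδ⟩
  choose δ hδ using hex
  refine ⟨⨆ i, δ i, fun n a b hab => hδ ⟨n, a, b⟩ (hab.mono ?_)⟩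
  exact Ordinal.le_iSup δ ⟨n, a, b⟩

theorem scott : SCOTT_stmt := by
  intro hFM hK1 hK2 hK3 M _ _ s
  classical
  obtain ⟨B0, hB⟩ := exists_bound M s
  -- automorphisms
  have haut : ∀ (n : ℕ) (a b : Fin n → M), BF B0 s univ a s univ b → Orbit s a b := by
    intro n a b hab
    refine back_forth' s s (fun n a b => BF B0 s univ a s univ b) n a b hab
      (fun n a b h => h.sameQf) ?_ ?_
    · intro n a b h x
      have h1 : BF (B0 + 1) s univ b s univ a := (hB n a b h (B0 + 2)).swap (by
        have : B0 + 1 < B0 + 1 + 1 := Order.lt_add_one_iff.2 le_rfl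
        rwa [add_assoc, one_add_one_eq_two] at this)
      rw [BF_iff] at h1
      obtain ⟨y, -, hy⟩ := h1.2 B0 (Order.lt_add_one_iff.2 le_rfl) 1 (fun _ => x)
        (fun _ => mem_univ _)
      refine ⟨y 0, ?_⟩
      have h2 := hy.reindex (fun i : Fin (n + 1) =>
        (Fin.addCases (fun j => Sum.inl j) (fun j => Sum.inr j) i : Fin n ⊕ Fin 1))
      have e1 : ∀ (c : Fin n → M) (d : Fin 1 → M), (Sum.elim c d ∘ (fun i : Fin (n + 1) =>
          (Fin.addCases (fun j => Sum.inl j) (fun j => Sum.inr j) i : Fin n ⊕ Fin 1))) =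
          Fin.append c (fun _ => d 0) := by
        intro c d
        funext i
        induction i using Fin.addCases with
        | left i => simp
        | right i => simp [Subsingleton.elim i 0]
      rw [e1, e1] at h2
      exact h2
    · intro n a b h x
      have h1 : BF (B0 + 2) s univ a s univ b := hB n a b h (B0 + 2)
      rw [BF_iff] at h1
      obtain ⟨y, -, hy⟩ := h1.2 (B0 + 1) (by
        have : B0 + 1 < B0 + 1 + 1 := Order.lt_add_one_iff.2 le_rfl
        rwa [add_assoc, one_add_one_eq_two] at this) 1 (fun _ => x) (fun _ => mem_univ _)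
      refine ⟨y 0, ?_⟩
      have h2 := (hy.swap (Order.lt_add_one_iff.2 le_rfl)).reindex (fun i : Fin (n + 1) =>
        (Fin.addCases (fun j => Sum.inl j) (fun j => Sum.inr j) i : Fin n ⊕ Fin 1))
      have e1 : ∀ (c : Fin n → M) (d : Fin 1 → M), (Sum.elim c d ∘ (fun i : Fin (n + 1) =>
          (Fin.addCases (fun j => Sum.inl j) (fun j => Sum.inr j) i : Fin n ⊕ Fin 1))) =
          Fin.append c (fun _ => d 0) := by
        intro c d
        funext i
        induction i using Fin.addCases with
        | left i => simp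
        | right i => simp [Subsingleton.elim i 0]
      rw [e1, e1] at h2
      exact h2
  -- orbits are definable
  have hlt : B0 + 1 < B0 + 1 + 1 := Order.lt_add_one_iff.2 le_rfl
  have h11 : 1 ≤ B0 + 1 := Order.one_le_iff_pos.2 (lt_of_le_of_lt (bot_le (a := B0))
    (Order.lt_add_one_iff.2 le_rfl))
  have hdef : ∀ (n : ℕ) (a : Fin n → M), SigDef s (B0 + 1 + 1) (Orbit s a) := by
    intro n a
    have hex : ∀ b : Fin n → M, ∃ φ : Fml n, φ.Lv false (B0 + 1) ∧ φ.Realize s a ∧
        (¬ Orbit s a b → ¬ φ.Realize s b) := by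
      intro b
      by_cases h : Orbit s a b
      · exact ⟨Fml.qf .tru, by simp [Fml.Lv], by simp [Fml.Realize, QF.Realize],
          fun h' => absurd h h'⟩
      · obtain ⟨φ, h1, h2, h3⟩ := hK2 B0 n M M s a s b (fun h' => h (haut n a b h'))
        exact ⟨φ, hFM.mono n φ false _ _ (Order.lt_add_one_iff.2 le_rfl).le h1, h2, fun _ => h3⟩
    choose φ h1 h2 h3 using hex
    obtain ⟨e, he⟩ := exists_surjective_nat (Fin n → M)
    obtain ⟨ψ, hψ, hψ'⟩ := hFM.conj (B0 + 1) h11 n (fun i => φ (e i)) (fun i => h1 _)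
    obtain ⟨θ, hθ, hθ'⟩ := hFM.lift n ψ false
    refine ⟨θ, hθ _ _ hlt hψ, fun v => ?_⟩
    rw [hθ', hψ']
    constructor
    · intro h
      by_contra hv
      obtain ⟨i, hi⟩ := he v
      have := h i
      rw [hi] at this
      exact h3 v hv this
    · rintro ⟨g, hg⟩ i
      have h4 := (fml_iso g (φ (e i)) a).1 (h2 _)
      have h5 : (g : M → M) ∘ a = v := funext hg
      rwa [h5] at h4
  obtain ⟨ψ, hψ, hψ'⟩ := hK3 M s (B0 + 1 + 1) (h11.trans hlt.le) hdef
  exact ⟨B0 + 1 + 1, ψ, hψ, hψ'⟩

end Pool.Agent.W889.SR.ScottEx
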