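import Mathlib
import Pool.Agent.W654.SR.Tree
import Pool.Agent.W889.SR.Asm

/-!
# `Π_{α+1}` sentences hold in the generic structure of level `α` (project SR)
-/

set_option autoImplicit false

namespace Pool.Agent.W889.SR

open Set Ordinal

/-- improved form of `TREE_stmt`: the sentence may be `Π_{α+1}` -/
def TREE2_stmt : Prop := K1 → ∀ (T : Type) [Countable T] (α : Ordinal.{0}), 2 ≤ α →
  (Set.Iio α).Countable → ∀ (r : T → T → Prop), IsTree r → ∀ φ : Fml 0, φ.IsPi (α + 1) →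
    Sat r φ → ∃ W0 : ℕ → Task T α, (∀ i, (W0 i).Dense r) ∧ ∀ s : ℕ → ℕ → Prop, Good r s W0 →
      IsTree s ∧ Sat s φ

end Pool.Agent.W889.SR

namespace Pool.Agent.W889.SR.Tr2

open Pool.Agent.W889.SR Pool.Agent.W654.SR.Tr Set Ordinal

variable {T : Type} {α : Ordinal.{0}}

theorem key2 (hK : K1) {r : T → T → Prop} (hα : 0 < α) {n : ℕ} (ψ : Fml n) (γ : Ordinal.{0})
    (hγ : γ ≤ α) (hψ : ψ.Lv true γ) (a : Fin n → T) (ha : ψ.Realize r a) :
    ∃ (m : ℕ) (c : Fin m → T) (δ : Ordinal.{0}), δ < α ∧ ∀ (s : ℕ → ℕ → Prop)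
      (f : Fin (n + m) → ℕ), BF δ r univ (Fin.append a c) s univ f →
        ψ.Realize s (f ∘ Fin.castAdd m) := by
  cases ψ with
  | qf φ =>
    refine ⟨0, Fin.elim0, 0, hα, fun s f hf => ?_⟩
    have h1 := hf.reindex (Fin.castAdd 0)
    have e1 : Fin.append a (Fin.elim0 : Fin 0 → T) ∘ Fin.castAdd 0 = a := by
      funext i; exact Fin.append_left _ _ _
    rw [e1] at h1
    exact (hK 0 n (.qf φ) T ℕ r a s _ h1).1 (by simp [Fml.IsPi, Fml.Lv]) ha
  | disj k θ =>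
    simp only [Fml.Lv] at hψ
    simp only [Fml.Realize] at ha
    obtain ⟨j, w, hw⟩ := ha
    obtain ⟨β, hβ, hlv⟩ := hψ j
    refine ⟨k j, w, β, lt_of_lt_of_le hβ hγ, fun s f hf => ?_⟩
    have h1 := (hK β _ (θ j) T ℕ r _ s _ hf).1 hlv hw
    simp only [Fml.Realize]
    refine ⟨j, f ∘ Fin.natAdd n, ?_⟩
    have e1 : Fin.append (f ∘ Fin.castAdd (k j)) (f ∘ Fin.natAdd n) = f := by
      funext i
      refine Fin.addCases (fun i => ?_) (fun i => ?_) i
      · rw [Fin.append_left]; rfl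
      · rw [Fin.append_right]; rfl
    rwa [e1]
  | conj k θ => simp [Fml.Lv] at hψ

theorem WF_dense2 (hK : K1) (r : T → T → Prop) (hα : 0 < α) {n : ℕ} (ψ : Fml n) (γ : Ordinal.{0})
    (hγ : γ ≤ α) (hψ : ψ.Lv true γ) (htr : ∀ a : Fin n → T, ψ.Realize r a) (m : ℕ) :
    (WF (α := α) r ψ m).Dense r := by
  refine dense_of r _ fun p t σ => ?_
  by_cases h : ∃ u : Fin n → Fin p.n, Encodable.encode u = m
  · obtain ⟨u, hu⟩ := h
    obtain ⟨l, c, δ, hδ, hc⟩ := key2 hK hα ψ γ hγ hψ (t.e ∘ σ ∘ u) (htr _)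
    refine ⟨l, c, δ, hδ, fun u' hu' => ?_⟩
    have huu : u' = u := Encodable.encode_injective (hu'.trans hu.symm)
    subst huu
    refine ⟨l, Fin.natAdd t.n, δ, le_max_right _ _, fun s f hf => hc s f ?_⟩
    have e1 : (app t c δ hδ).e ∘ (Fin.castAdd l ∘ σ) ∘ u' = t.e ∘ σ ∘ u' := by
      funext i; exact Fin.append_left _ _ _
    have e2 : (app t c δ hδ).e ∘ Fin.natAdd t.n = c := by
      funext i; exact Fin.append_right _ _ _
    rw [e1] at hf
    have e3 : Fin.append (t.e ∘ σ ∘ u') ((app t c δ hδ).e ∘ Fin.natAdd t.n) =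
      Fin.append (t.e ∘ σ ∘ u') c := congrArg _ e2
    rwa [e3] at hf
  · refine ⟨0, Fin.elim0, 0, hα, fun u hu => absurd ⟨u, hu⟩ h⟩

theorem tree2 : TREE2_stmt := by
  intro hK T _ α hα _ r hr φ hφ hsat
  have h1 : (1 : Ordinal) < α := lt_of_lt_of_le one_lt_two hα
  have h0 : (0 : Ordinal) < α := lt_trans zero_lt_one h1
  obtain ⟨o, ho⟩ := hr.root
  have hIs : ∀ (W : ℕ → Task T α) (s : ℕ → ℕ → Prop), W 0 = WR o → W 1 = WP r → Good r s W →
      IsTree s := by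
    intro W s hW0 hW1 hG
    refine ⟨fun x => ?_, fun x y => ?_, fun x y z => ?_, root_of h1 hG o ho 0 hW0,
      fin_of h1 hG 1 hW1, fun x y z => ?_⟩
    · obtain ⟨a, ha⟩ := tuple h1 hG ![x]
      exact (ha.1 0 0).1 (hr.refl _)
    · obtain ⟨a, ha⟩ := tuple h1 hG ![x, y]
      intro hxy hyx
      exact (ha.2 0 1).1 (hr.antisymm _ _ ((ha.1 0 1).2 hxy) ((ha.1 1 0).2 hyx))
    · obtain ⟨a, ha⟩ := tuple h1 hG ![x, y, z]
      intro hxy hyz
      exact (ha.1 0 2).1 (hr.trans _ _ _ ((ha.1 0 1).2 hxy) ((ha.1 1 2).2 hyz))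
    · obtain ⟨a, ha⟩ := tuple h1 hG ![x, y, z]
      intro hyx hzx
      rcases hr.chain _ _ _ ((ha.1 1 0).2 hyx) ((ha.1 2 0).2 hzx) with h | h
      · exact Or.inl ((ha.1 1 2).1 h)
      · exact Or.inr ((ha.1 2 1).1 h)
  cases φ with
  | qf χ =>
    refine ⟨fun i => if i = 0 then WR o else WP r, fun i => ?_, fun s hG => ⟨?_, ?_⟩⟩
    · dsimp only
      split_ifs
      · exact WR_dense r h0 o
      · exact WP_dense r hr h0
    · exact hIs _ s (by simp) (by simp) hG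
    · exact (hK 0 0 (.qf χ) T ℕ r _ s _ ((hG.base 1 le_rfl h1).mono zero_le_one)).1
        (by simp [Fml.IsPi, Fml.Lv]) hsat
  | disj k θ => simp [Fml.IsPi, Fml.Lv] at hφ
  | conj k ψ =>
    simp only [Fml.IsPi, Fml.Lv] at hφ
    simp only [Sat, Fml.Realize] at hsat
    have happ : ∀ (A : Type) (n : ℕ) (a : Fin (0 + n) → A),
        Fin.append (Fin.elim0 : Fin 0 → A) (a ∘ Fin.natAdd 0) = a := by
      intro A n a
      funext i
      refine Fin.addCases (fun i => i.elim0) (fun i => ?_) i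
      rw [Fin.append_right]; rfl
    refine ⟨Pool.Agent.W654.SR.Tr.fam r o (fun i => 0 + k i) ψ, fun i => ?_, fun s hG => ⟨?_, ?_⟩⟩
    · match i with
      | 0 => exact WR_dense r h0 o
      | 1 => exact WP_dense r hr h0
      | i + 2 =>
        obtain ⟨γ, hγ, hlv⟩ := hφ i.unpair.1
        refine WF_dense2 hK r h0 (ψ i.unpair.1) γ (Order.lt_add_one_iff.1 hγ) hlv (fun a => ?_) _
        have := hsat i.unpair.1 (a ∘ Fin.natAdd 0)
        rwa [happ] at this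
    · exact hIs _ s rfl rfl hG
    · simp only [Sat, Fml.Realize]
      intro i w
      refine real_of h1 hG (ψ i) (fun m => ⟨Nat.pair i m + 2, ?_⟩) _
      show WF r (ψ (Nat.pair i m).unpair.1) (Nat.pair i m).unpair.2 = WF r (ψ i) m
      rw [Nat.unpair_pair]

end Pool.Agent.W889.SR.Tr2

namespace Pool.Agent.W889.SR

open Set Ordinal

theorem assemble2 (hFM : FM) (hK12 : K12_stmt) (hK3 : K3_stmt) (hFIN : FIN_stmt)
    (hCBD : CBD_stmt) (hFV : FV_stmt) (hTREE : TREE2_stmt) (hQB : QB_stmt) (hL : L1NM_stmt)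
    (hDEF : DEF_stmt) (hSW : SW) (hINV : INV) (hORB : ORB_stmt) (α : Ordinal.{0}) (h2 : 2 ≤ α)
    (hc : α.card ≤ Cardinal.aleph0) (φ : Fml 0) (hφ : φ.IsPi (α + 1))
    (hT : ∃ (T : Type) (_ : Countable T) (r : T → T → Prop), IsTree r ∧ Sat r φ) :
    ∃ (M : Type) (_ : Countable M) (s : M → M → Prop), IsTree s ∧ Sat s φ ∧
      ∃ ψ : Fml 0, ψ.IsPi (α + 1 + 1) ∧ IsScott s ψ := by
  classical
  obtain ⟨T, hTc, r, hr, hsat⟩ := hT
  obtain ⟨hK1, hK2, hRD⟩ := hK12 hFM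
  rcases finite_or_infinite T with hfin | hinf
  · have : Nonempty T := ⟨hr.root.choose⟩
    exact ⟨T, hTc, r, hr, hsat, finish_finite hFM hK3 hFIN r α⟩
  have hα := iio_countable α hc
  have hQ : QLaws := hQB qa
  have : Countable (SB T α) := countable_sb T α hα
  have : Countable (Q (SB T α)) := qa.count _ inferInstance
  obtain ⟨hPQ, hPTE, hPNM⟩ := hCBD T α hα qa.count r (dec T α hα r)
  obtain ⟨W0, hW0, hgood⟩ := hTREE hK1 T α h2 hα r hr φ hφ hsat
  have : ∀ j : JJ T α, Finite (JI j) := ji_finite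
  obtain ⟨s, hs, htr⟩ := main ex T α h2 hα r (JJ T α) JI (JP r)
    (by
      rintro (x | k | k)
      · exact hPQ x.1 x.2
      · exact hPTE k.down
      · exact hPNM k.down) W0 hW0
  obtain ⟨hst, hsφ⟩ := hgood s hs
  obtain ⟨hL1, hNM⟩ := hL hFV.1 hFV.2 hQ T α r s hr.isForest hst.isForest
    (fun k => htr (.inr (.inl ⟨k⟩))) (fun k => htr (.inr (.inr ⟨k⟩)))
  have hTD : TD α r s := hDEF hFM hRD qa.count T α h2 hα r s (fun k q => htr (.inl (k, q)))
  have horb := hORB hFM hSW hQ hINV T α h2 r s hst hL1 hNM hTD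
  exact ⟨ℕ, inferInstance, s, hst, hsφ, hK3 hFM ℕ s (α + 1) le_add_self horb⟩

end Pool.Agent.W889.SR
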